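import Pool.Agent.Helper3.CK.Fin
import Pool.Graph.R_pool_sql_team_seeded_63374d34.N44.HL.Defs

/-!
# CK: permutational wreath products with an arbitrary base group
-/

set_option autoImplicit false

namespace Pool.Agent.Helper3.CK

open Pool.Agent.W661.RC (HasT)
open Pool.Agent.H21R2 (IsHyperlinear IsSofic)

noncomputable section

/-- the group of the functions of finite support on `X` with values in `L` -/
def Fs (X L : Type) [Group L] : Subgroup (X → L) where
  carrier := {f | (Function.mulSupport f).Finite}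
  one_mem' := by simp
  mul_mem' := fun {a b} ha hb => (ha.union hb).subset (Function.mulSupport_mul a b)
  inv_mem' := fun {a} ha => by simpa using ha

section act

variable {X L Q : Type} [Group L] [Group Q] [MulAction Q X]

theorem fs_shift (q : Q) (f : Fs X L) : (fun x => (f : X → L) (q • x)) ∈ Fs X L := by
  have h : Function.mulSupport (fun x => (f : X → L) (q • x)) =
      (fun x => q • x) ⁻¹' Function.mulSupport (f : X → L) := rfl
  show (Function.mulSupport _).Finite
  rw [h]
  exact Set.Finite.preimage (MulAction.injective q).injOn f.2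

/-- the function `x ↦ f (q x)` -/
def fsShift (q : Q) (f : Fs X L) : Fs X L := ⟨fun x => (f : X → L) (q • x), fs_shift q f⟩

theorem fsShift_mul (q : Q) (f g : Fs X L) : fsShift q (f * g) = fsShift q f * fsShift q g := rfl

theorem fsShift_shift (q r : Q) (f : Fs X L) : fsShift q (fsShift r f) = fsShift (r * q) f := by
  apply Subtype.ext
  funext x
  show (f : X → L) (r • q • x) = (f : X → L) ((r * q) • x)
  rw [mul_smul]

theorem fsShift_one (f : Fs X L) : fsShift (1 : Q) f = f := by
  apply Subtype.ext
  funext x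
  show (f : X → L) ((1 : Q) • x) = (f : X → L) x
  rw [one_smul]

theorem fsShift_inv (q : Q) (f : Fs X L) : fsShift q (fsShift q⁻¹ f) = f := by
  rw [fsShift_shift, inv_mul_cancel, fsShift_one]

theorem fsShift_inv' (q : Q) (f : Fs X L) : fsShift q⁻¹ (fsShift q f) = f := by
  rw [fsShift_shift, mul_inv_cancel, fsShift_one]

/-- the automorphism `f ↦ (x ↦ f (q⁻¹ x))` -/
def fsAut (q : Q) : MulAut (Fs X L) where
  toFun := fsShift q⁻¹
  invFun := fsShift q
  left_inv := fsShift_inv q
  right_inv := fsShift_inv' q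
  map_mul' := fsShift_mul q⁻¹

theorem fsAut_mul (q r : Q) : (fsAut (q * r) : MulAut (Fs X L)) = fsAut q * fsAut r := by
  apply MulEquiv.ext
  intro f
  show fsShift (q * r)⁻¹ f = fsShift q⁻¹ (fsShift r⁻¹ f)
  rw [fsShift_shift, mul_inv_rev]

end act

/-- the action of `Q` on the functions on a `Q`-set `X`: `(q f) x = f (q⁻¹ x)` -/
def fsAct (X L Q : Type) [Group L] [Group Q] [MulAction Q X] : Q →* MulAut (Fs X L) :=
  MonoidHom.mk' fsAut fsAut_mul

theorem fsAct_apply {X L Q : Type} [Group L] [Group Q] [MulAction Q X] (q : Q) (f : Fs X L)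
    (x : X) : ((fsAct X L Q q f : Fs X L) : X → L) x = (f : X → L) (q⁻¹ • x) := rfl

/-- the permutational wreath product of `L` and `Q` for the action of `Q` on the cosets of `K` -/
abbrev PWr (L : Type) [Group L] {Q : Type} [Group Q] (K : Subgroup Q) : Type :=
  Fs (Q ⧸ K) L ⋊[fsAct (Q ⧸ K) L Q] Q

variable {Q : Type} [Group Q] (K : Subgroup Q) {L : Type} [Group L]

open Classical in
/-- the lamps at the coset `K` -/
def lampL : L →* Fs (Q ⧸ K) L where
  toFun l := ⟨fun x => if x = (QuotientGroup.mk 1 : Q ⧸ K) then l else 1,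
    (Set.finite_singleton (QuotientGroup.mk 1 : Q ⧸ K)).subset fun x hx => by
      by_contra h
      exact hx (if_neg h)⟩
  map_one' := by
    ext x
    simp
  map_mul' a b := by
    ext x
    change (if x = (QuotientGroup.mk 1 : Q ⧸ K) then a * b else 1) =
      (if x = (QuotientGroup.mk 1 : Q ⧸ K) then a else 1) *
      (if x = (QuotientGroup.mk 1 : Q ⧸ K) then b else 1)
    split_ifs
    · rfl
    · rw [mul_one]

theorem lampL_same (l : L) :
    ((lampL K l : Fs (Q ⧸ K) L) : Q ⧸ K → L) (QuotientGroup.mk 1 : Q ⧸ K) = l := if_pos rfl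

theorem lampL_ne (l : L) {x : Q ⧸ K} (h : x ≠ (QuotientGroup.mk 1 : Q ⧸ K)) :
    ((lampL K l : Fs (Q ⧸ K) L) : Q ⧸ K → L) x = 1 := if_neg h

theorem act_lampL {y : Q} (hy : y ∈ K) (l : L) :
    fsAct (Q ⧸ K) L Q y (lampL K l) = lampL K l := by
  apply Subtype.ext
  funext x
  rw [fsAct_apply]
  have h1 : y • (QuotientGroup.mk 1 : Q ⧸ K) = QuotientGroup.mk 1 := by
    rw [MulAction.Quotient.smul_mk, smul_eq_mul, mul_one, QuotientGroup.eq]
    simpa using hy
  by_cases hx : x = QuotientGroup.mk 1
  · rw [hx, inv_smul_eq_iff.2 h1.symm]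
  · have h2 : y⁻¹ • x ≠ QuotientGroup.mk 1 := by
      intro h3
      apply hx
      rw [inv_smul_eq_iff, h1] at h3
      exact h3
    rw [lampL_ne K l h2, lampL_ne K l hx]

theorem act_lampL_ne {y : Q} (hy : y ∉ K) {l : L} (hl : l ≠ 1) :
    fsAct (Q ⧸ K) L Q y (lampL K l) ≠ lampL K l := by
  intro h
  have h1 := congrFun (congrArg Subtype.val h) (QuotientGroup.mk 1 : Q ⧸ K)
  rw [fsAct_apply, lampL_same, lampL_ne] at h1
  · exact hl h1.symm
  · rw [MulAction.Quotient.smul_mk, smul_eq_mul, mul_one, ne_eq, QuotientGroup.eq]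
    intro h2
    apply hy
    simpa using h2

theorem lampL_comm {y : Q} (hy : y ∈ K) (l : L) :
    (SemidirectProduct.inl (lampL K l) : PWr L K) * SemidirectProduct.inr y =
      SemidirectProduct.inr y * SemidirectProduct.inl (lampL K l) := by
  ext1
  · simp only [SemidirectProduct.mul_left, SemidirectProduct.left_inl,
      SemidirectProduct.right_inl, SemidirectProduct.left_inr, SemidirectProduct.right_inr,
      map_one, one_mul, mul_one]
    exact (act_lampL K hy l).symm
  · simp

theorem lampL_not_comm {y : Q} (hy : y ∉ K) {l : L} (hl : l ≠ 1) :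
    (SemidirectProduct.inl (lampL K l) : PWr L K) * SemidirectProduct.inr y ≠
      SemidirectProduct.inr y * SemidirectProduct.inl (lampL K l) := by
  intro h
  have h1 := congrArg SemidirectProduct.left h
  simp only [SemidirectProduct.mul_left, SemidirectProduct.left_inl, SemidirectProduct.right_inl,
    SemidirectProduct.left_inr, SemidirectProduct.right_inr, map_one, one_mul, mul_one] at h1
  exact act_lampL_ne K hy hl h1.symm

/-- No hyperlinear group contains `Q` and an element which commutes with `K` but not with all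
conjugates of `K`. -/
theorem not_hyp_of {K : Subgroup Q} (hP : Pair Q K) {P : Type} [Group P] (j : Q →* P) (t : P)
    (h1 : ∀ x ∈ K, t * j x = j x * t) (h2 : ∀ y ∉ K, t * j y ≠ j y * t) :
    ¬ IsHyperlinear P := by
  intro h
  obtain ⟨q, x, hx, hq⟩ := hP.ne
  exact h2 _ hq (s_clos P Q j K h hP.tQ hP.tK hP.gen t h1 q x hx)

theorem not_hyp_pwr {K : Subgroup Q} (hP : Pair Q K) [Nontrivial L] :
    ¬ IsHyperlinear (PWr L K) := by
  obtain ⟨l, hl⟩ := exists_ne (1 : L)
  exact not_hyp_of hP SemidirectProduct.inr (SemidirectProduct.inl (lampL K l))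
    (fun x hx => lampL_comm K hx l) (fun y hy => lampL_not_comm K hy hl)

open Pool.Agent.N44.HL

/-- the maps to the wreath product -/
def fbW (K : Subgroup Q) (L : Type) [Group L] : ∀ b, extFam K L b →* PWr L K
  | true => (SemidirectProduct.inr : Q →* PWr L K)
  | false => MonoidHom.noncommCoprod
        ((SemidirectProduct.inr : Q →* PWr L K).comp K.subtype)
        ((SemidirectProduct.inl : _ →* PWr L K).comp (lampL K))
        (fun k l => (lampL_comm K k.2 l).symm)

theorem fbW_comp (K : Subgroup Q) (L : Type) [Group L] (b : Bool) :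
    (fbW K L b).comp (extMap K L b) =
      (SemidirectProduct.inr : Q →* PWr L K).comp K.subtype := by
  cases b
  · apply MonoidHom.ext
    intro k
    show (SemidirectProduct.inr : Q →* PWr L K) (k : Q) *
      (SemidirectProduct.inl : _ →* PWr L K) (lampL K (1 : L)) = _
    rw [map_one, map_one, mul_one]
    rfl
  · rfl

theorem not_hyp_ext {K : Subgroup Q} (hP : Pair Q K) [Nontrivial L] :
    ¬ IsHyperlinear (FreeExt K L) := by
  obtain ⟨l, hl⟩ := exists_ne (1 : L)
  let F : FreeExt K L →* PWr L K := Monoid.PushoutI.lift (fbW K L)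
    ((SemidirectProduct.inr : Q →* PWr L K).comp K.subtype) (fbW_comp K L)
  let jj : Q →* FreeExt K L := Monoid.PushoutI.of (φ := extMap K L) true
  let tt : K × L →* FreeExt K L := Monoid.PushoutI.of (φ := extMap K L) false
  have hF1 : ∀ y : Q, F (jj y) = SemidirectProduct.inr y := fun y =>
    Monoid.PushoutI.lift_of (fbW K L) ((SemidirectProduct.inr : Q →* PWr L K).comp K.subtype)
      (fbW_comp K L) (i := true) y
  have hF2 : F (tt (1, l)) = SemidirectProduct.inl (lampL K l) := by
    have h := Monoid.PushoutI.lift_of (fbW K L)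
      ((SemidirectProduct.inr : Q →* PWr L K).comp K.subtype) (fbW_comp K L) (i := false)
      ((1, l) : K × L)
    refine h.trans ?_
    show (SemidirectProduct.inr : Q →* PWr L K) ((1 : K) : Q) *
      (SemidirectProduct.inl : _ →* PWr L K) (lampL K l) = _
    rw [Subgroup.coe_one, map_one, one_mul]
  have hk : ∀ (x : Q) (hx : x ∈ K), jj x = tt ((⟨x, hx⟩ : K), 1) := by
    intro x hx
    have a1 := Monoid.PushoutI.of_apply_eq_base (extMap K L) true ⟨x, hx⟩
    have a2 := Monoid.PushoutI.of_apply_eq_base (extMap K L) false ⟨x, hx⟩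
    exact a1.trans a2.symm
  refine not_hyp_of hP jj (tt (1, l)) (fun x hx => ?_) (fun y hy h => ?_)
  · rw [hk x hx, ← map_mul, ← map_mul, Prod.mk_mul_mk, Prod.mk_mul_mk, one_mul, mul_one, mul_one,
      one_mul]
  · have h1 := congrArg F h
    rw [map_mul, map_mul, hF1, hF2] at h1
    exact lampL_not_comm K hy hl h1

end

end Pool.Agent.Helper3.CK
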