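import Pool.Graph.R_seed8.W661.RC.UDefs
import Pool.Graph.R_seed8.W661.RC.Stm2

/-!
# CK: the two definitions of property (T)
-/

set_option autoImplicit false

namespace Pool.Agent.Helper3.CK

open Pool.Agent.W661.RCU (URep)

noncomputable section

variable {G H : Type} [Group G] [NormedAddCommGroup H] [InnerProductSpace ℂ H]

/-- the operators of a representation -/
def repL (ρ : URep G H) : G →* (H ≃ₗᵢ[ℂ] H) where
  toFun g :=
    { toFun := ρ.act g
      map_add' := ρ.add g
      map_smul' := ρ.smul g
      invFun := ρ.act g⁻¹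
      left_inv := fun v => by rw [← ρ.mul, inv_mul_cancel, ρ.one]
      right_inv := fun v => by rw [← ρ.mul, mul_inv_cancel, ρ.one]
      norm_map' := ρ.norm g }
  map_one' := by
    ext v
    exact ρ.one v
  map_mul' g h := by
    ext v
    exact ρ.mul g h v

/-- property (T) for the representations in the sense of `URep` -/
theorem hasT_u {G : Type} [Group G] (hT : Pool.Agent.W661.RC.HasT G) :
    Pool.Agent.W661.RCU.HasT G := by
  intro H _ _ _ ρ hρ
  exact hT H ((Unitary.linearIsometryEquiv (𝕜 := ℂ) (H := H)).symm.toMonoidHom.comp (repL ρ)) hρ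

end

end Pool.Agent.Helper3.CK
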