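import Pool.Agent.Helper3.CK.Tn

/-!
# CK: central elements of the block algebra and the transport of mass
-/

set_option autoImplicit false

namespace Pool.Agent.Helper3.CK

open Matrix Finset
open scoped ComplexOrder
open Pool.Agent.W661.RC Pool.Agent.W683.RC Pool.Agent.N303.KQ

noncomputable section

variable {d : ℕ} {O : Out d}

/-- class functions -/
def CF (O : Out d) (φ : O.I → ℝ) : Prop := ∀ i j, O.c i = O.c j → φ i = φ j

/-- the central element of the function `φ` -/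
def Zf (O : Out d) (φ : O.I → ℝ) : Mt d := Am O (diagonal fun j => ((φ j : ℝ) : ℂ))

theorem BD_dg (f : O.I → ℂ) : BD O (diagonal f) := by
  intro i j hij
  exact diagonal_apply_ne _ fun h => hij (by rw [h])

theorem Zf_mem (φ : O.I → ℝ) : Zf O φ ∈ O.alg := Am_mem (BD_dg _)

theorem Zf_conj (φ : O.I → ℝ) : (Zf O φ)ᴴ = Zf O φ := by
  rw [Zf, Am_conjTranspose, diagonal_conjTranspose]
  congr 2
  funext j
  exact Complex.conj_ofReal _

theorem Zf_mul (φ ψ : O.I → ℝ) : Zf O φ * Zf O ψ = Zf O (fun j => φ j * ψ j) := by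
  rw [Zf, Zf, Am_mul (BD_dg _), diagonal_mul_diagonal, Zf]
  congr 2
  funext j
  push_cast
  rfl

theorem Zf_eq (φ : O.I → ℝ) : Zf O φ = ∑ j, ((φ j : ℝ) : ℂ) • pr O j := by
  have h : (diagonal fun j => ((φ j : ℝ) : ℂ)) = ∑ j, ((φ j : ℝ) : ℂ) • eu O j j := by
    ext a b
    rw [Matrix.sum_apply]
    simp only [Matrix.smul_apply, eu, smul_eq_mul]
    rw [sum_eq_single a]
    · by_cases h : a = b
      · subst h; simp
      · rw [diagonal_apply_ne _ h, if_neg (fun h2 => h h2.2.symm), mul_zero]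
    · intro c _ hc
      rw [if_neg (fun h2 => hc h2.1.symm), mul_zero]
    · intro h; exact absurd (mem_univ _) h
  rw [Zf, h, Am_sum]
  refine sum_congr rfl fun j _ => ?_
  rw [Am_smul]
  rfl

theorem Zf_comm {φ : O.I → ℝ} (hφ : CF O φ) {a : Mt d} (ha : a ∈ O.alg) :
    Zf O φ * a = a * Zf O φ := by
  obtain ⟨α, hα, rfl⟩ := mem_alg.1 ha
  rw [Zf, Am_mul (BD_dg _), Am_mul hα]
  congr 1
  ext i j
  rw [diagonal_mul, mul_diagonal]
  by_cases h : O.c i = O.c j
  · rw [hφ i j h, mul_comm]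
  · rw [hα i j h, mul_zero, zero_mul]

theorem Zf_one : Zf O (fun _ => 1) = pO O := by
  rw [Zf_eq, ← sum_pr]
  refine sum_congr rfl fun j _ => ?_
  rw [Complex.ofReal_one, one_smul]

theorem Zf_psd {φ : O.I → ℝ} (h : ∀ j, 0 ≤ φ j) : (Zf O φ).PosSemidef := by
  rw [Zf_eq]
  exact Matrix.posSemidef_sum _ fun j _ => psd_smul (pr_psd (pr_isPr j)) (h j)

theorem Zf_le {φ ψ : O.I → ℝ} (h : ∀ j, φ j ≤ ψ j) : Le (Zf O φ) (Zf O ψ) := by
  rw [Zf_eq, Zf_eq]
  exact Le_sum _ _ _ fun j _ => Le_smul_right (pr_psd (pr_isPr j)) (h j)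

theorem Zf_le_one {φ : O.I → ℝ} (h : ∀ j, φ j ≤ 1) : Le (Zf O φ) 1 := by
  have h1 := Zf_le (O := O) h
  rw [Zf_one] at h1
  exact Le_trans h1 (pr_le_one pO_pr)

theorem pO_mul {a : Mt d} (ha : a ∈ O.alg) : pO O * a = a := pO_mul_alg ha

theorem mul_pO {a : Mt d} (ha : a ∈ O.alg) : a * pO O = a := by
  have h := congrArg conjTranspose (pO_mul_alg (alg_conjTranspose ha))
  rwa [conjTranspose_mul, conjTranspose_conjTranspose, pO_pr.1] at h

/-- the normalised class projection -/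
def Zn (O : Out d) (j : O.I) : Mt d := Zf O (fun i => if O.c i = O.c j then ((mc O j : ℝ))⁻¹ else 0)

theorem mc_class {i j : O.I} (h : O.c i = O.c j) : mc O i = mc O j := by
  rw [mc, mc]
  congr 1
  ext k
  simp [h]

theorem Zn_CF (j : O.I) : CF O (fun i => if O.c i = O.c j then ((mc O j : ℝ))⁻¹ else 0) := by
  intro i i' h
  beta_reduce
  rw [h]

theorem Zn_mem (j : O.I) : Zn O j ∈ O.alg := Zf_mem _

theorem Zn_comm (j : O.I) {a : Mt d} (ha : a ∈ O.alg) : Zn O j * a = a * Zn O j :=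
  Zf_comm (Zn_CF j) ha

theorem Zn_psd (j : O.I) : (Zn O j).PosSemidef := Zf_psd fun i => by
  split_ifs
  · positivity
  · exact le_rfl

/-- sums of class functions against the normalised class projections -/
theorem sum_Zn {φ : O.I → ℝ} (hφ : CF O φ) : ∑ j, ((φ j : ℝ) : ℂ) • Zn O j = Zf O φ := by
  have h1 : ∀ j, ((φ j : ℝ) : ℂ) • Zn O j = ∑ i, ((φ j * (if O.c i = O.c j then ((mc O j : ℝ))⁻¹
      else 0) : ℝ) : ℂ) • pr O i := by
    intro j
    rw [Zn, Zf_eq, Finset.smul_sum]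
    refine sum_congr rfl fun i _ => ?_
    rw [smul_smul]
    push_cast
    rfl
  simp only [h1]
  rw [sum_comm, Zf_eq]
  refine sum_congr rfl fun i _ => ?_
  rw [← Finset.sum_smul]
  congr 1
  have h2 : ∑ j, φ j * (if O.c i = O.c j then ((mc O j : ℝ))⁻¹ else 0) = φ i := by
    have h3 : ∀ j, φ j * (if O.c i = O.c j then ((mc O j : ℝ))⁻¹ else 0) =
        if O.c j = O.c i then φ i * ((mc O i : ℝ))⁻¹ else 0 := by
      intro j
      by_cases h : O.c i = O.c j
      · rw [if_pos h, if_pos h.symm, hφ i j h, mc_class h]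
      · rw [if_neg h, if_neg (fun h2 => h h2.symm), mul_zero]
    simp only [h3]
    rw [← sum_filter, sum_const, nsmul_eq_mul]
    change (mc O i : ℝ) * (φ i * ((mc O i : ℝ))⁻¹) = φ i
    have h4 : (mc O i : ℝ) ≠ 0 := by exact_mod_cast (mc_pos i).ne'
    field_simp
  rw [← Complex.ofReal_sum, h2]

/-- `b Z` is positive for `b` positive in the algebra and `Z` central positive -/
theorem psd_mul_Zf {φ : O.I → ℝ} (hφ : CF O φ) (h : ∀ j, 0 ≤ φ j) {b : Mt d} (hb : b ∈ O.alg)
    (hb0 : b.PosSemidef) : (b * Zf O φ).PosSemidef := by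
  have e : b * Zf O φ = Zf O (fun j => √(φ j)) * b * (Zf O (fun j => √(φ j)))ᴴ := by
    rw [Zf_conj, Zf_comm (fun i j hij => by rw [hφ i j hij]) hb, Matrix.mul_assoc, Zf_mul]
    congr 2
    funext j
    exact (Real.mul_self_sqrt (h j)).symm
  rw [e]
  exact hb0.mul_mul_conjTranspose_same _

theorem psd_mul_Zn (j : O.I) {b : Mt d} (hb : b ∈ O.alg) (hb0 : b.PosSemidef) :
    (b * Zn O j).PosSemidef := psd_mul_Zf (Zn_CF j) (fun i => by
  split_ifs
  · positivity
  · exact le_rfl) hb hb0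

/-! ### Transport of mass -/

/-- mass transported by `V` from the row `j` to the class of `j'`, localised by `b` -/
def mm (O : Out d) (b V : Mt d) (j' j : O.I) : ℝ := tr (b * Zn O j' * (V * pr O j * Vᴴ))

theorem prV_psd (V : Mt d) (j : O.I) : (V * pr O j * Vᴴ).PosSemidef :=
  (pr_psd (pr_isPr j)).mul_mul_conjTranspose_same V

theorem mm_nonneg {b V : Mt d} (hb : b ∈ O.alg) (hb0 : b.PosSemidef) (j' j : O.I) :
    0 ≤ mm O b V j' j :=
  Pool.Agent.W683.RC.tr_mul_nonneg (psd_mul_Zn j' hb hb0) (prV_psd V j)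

theorem sum_prV (V : Mt d) (ψ : O.I → ℝ) : ∑ j, ((ψ j : ℝ) : ℂ) • (V * pr O j * Vᴴ) =
    V * Zf O ψ * Vᴴ := by
  rw [Zf_eq, Matrix.mul_sum, Matrix.sum_mul]
  refine sum_congr rfl fun j _ => ?_
  rw [Matrix.mul_smul, Matrix.smul_mul]

/-- sums against functions of the source -/
theorem sum_mm_src (b V : Mt d) (ψ : O.I → ℝ) (j' : O.I) :
    ∑ j, ψ j * mm O b V j' j = tr (b * Zn O j' * (V * Zf O ψ * Vᴴ)) := by
  rw [← sum_prV, Matrix.mul_sum, tr_sum]
  refine sum_congr rfl fun j _ => ?_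
  rw [Matrix.mul_smul, tr_smul, mm]

/-- sums against products -/
theorem sum_mm (b V : Mt d) {φ : O.I → ℝ} (hφ : CF O φ) (ψ : O.I → ℝ) :
    ∑ j', ∑ j, φ j' * ψ j * mm O b V j' j = tr (b * Zf O φ * (V * Zf O ψ * Vᴴ)) := by
  have h1 : ∀ j', ∑ j, φ j' * ψ j * mm O b V j' j =
      φ j' * tr (b * Zn O j' * (V * Zf O ψ * Vᴴ)) := by
    intro j'
    rw [← sum_mm_src, mul_sum]
    exact sum_congr rfl fun j _ => by ring
  simp only [h1]
  rw [← sum_Zn hφ, Matrix.mul_sum, Matrix.sum_mul, tr_sum]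
  refine sum_congr rfl fun j' _ => ?_
  rw [Matrix.mul_smul, Matrix.smul_mul, tr_smul]

theorem kk_eq (V : Mt d) (j' j : O.I) : kk O V j' j = tr (pr O j' * (V * pr O j * Vᴴ)) := by
  rw [kk, hs_eq_tr', conjTranspose_mul, conjTranspose_mul, (pr_isPr j').1, (pr_isPr j).1]
  calc tr (pr O j' * V * pr O j * (pr O j * (Vᴴ * pr O j'))) =
      tr (pr O j' * (V * (pr O j * pr O j) * Vᴴ) * pr O j') := by simp only [Matrix.mul_assoc]
    _ = tr (pr O j' * (V * pr O j * Vᴴ)) := by
      rw [(pr_isPr j).2, tr_mul_comm, ← Matrix.mul_assoc, (pr_isPr j').2]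

theorem kk_nonneg (V : Mt d) (j' j : O.I) : 0 ≤ kk O V j' j := Pool.Agent.W683.RC.hs_nonneg _

/-- comparison of the total mass with `kk` -/
theorem sum_kk_eq (V : Mt d) (g : O.I → O.I → ℝ) (hg : ∀ j, CF O fun j' => g j' j) :
    ∑ j', ∑ j, g j' j * kk O V j' j = ∑ j', ∑ j, g j' j * mm O (pO O) V j' j := by
  rw [sum_comm, sum_comm (f := fun j' j => g j' j * mm O (pO O) V j' j)]
  refine sum_congr rfl fun j _ => ?_
  have h1 : ∑ j', g j' j * kk O V j' j = tr (Zf O (fun j' => g j' j) * (V * pr O j * Vᴴ)) := by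
    rw [Zf_eq, Matrix.sum_mul, tr_sum]
    refine sum_congr rfl fun j' _ => ?_
    rw [Matrix.smul_mul, tr_smul, kk_eq]
  have h2 : ∑ j', g j' j * mm O (pO O) V j' j =
      tr (Zf O (fun j' => g j' j) * (V * pr O j * Vᴴ)) := by
    rw [← sum_Zn (hg j), Matrix.sum_mul, tr_sum]
    refine sum_congr rfl fun j' _ => ?_
    rw [Matrix.smul_mul, tr_smul, mm, pO_mul (Zn_mem j')]
  rw [h1, h2]

/-! ### The weights -/

theorem ph_nonneg (j : O.I) : 0 ≤ ph O j := by
  unfold ph
  positivity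

theorem ph_CF : CF O (ph O) := by
  intro i j h
  rw [ph, ph, h, mc_class h]

theorem pr_eq_zero {j : O.I} (h : ph O j = 0) : pr O j = 0 := by
  have h1 : (O.l (O.c j) : ℝ) = 0 := by
    rw [ph, div_eq_zero_iff] at h
    rcases h with h | h
    · exact h
    · exact absurd h (by exact_mod_cast (mc_pos j).ne')
  have h2 : hs (pr O j) = 0 := by
    rw [Pool.Agent.N957.NH.MONO.hs_pr, Pool.Agent.N957.NH.rk, h1]
  exact hs_eq_zero_iff.1 h2

theorem kk_eq_zero {V : Mt d} {j' j : O.I} (h : ph O j' = 0 ∨ ph O j = 0) : kk O V j' j = 0 := by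
  rw [kk]
  rcases h with h | h <;> rw [pr_eq_zero h] <;> simp [hs_zero]

/-- downward loss: `a` the weight of the source, `a'` the weight of the target -/
def gd (a' a : ℝ) : ℝ := max 0 (1 - a / a')

/-- upward loss -/
def gu (a' a : ℝ) : ℝ := max 0 (1 - a' / a)

theorem gd_nonneg (a' a : ℝ) : 0 ≤ gd a' a := le_max_left _ _
theorem gu_nonneg (a' a : ℝ) : 0 ≤ gu a' a := le_max_left _ _

theorem gu_le_one {a' a : ℝ} (h' : 0 ≤ a') (h : 0 ≤ a) : gu a' a ≤ 1 :=
  max_le zero_le_one (by linarith [div_nonneg h' h])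

/-- the size of a block of the compression -/
def κκ (O : Out d) (V : Mt d) (j' j : O.I) : ℝ :=
  ∑ y' : Yx O, ∑ y : Yx O, (if y'.1.1 = j' ∧ y.1.1 = j then ‖TT O V y' y‖ ^ 2 else 0)

theorem κκ_nonneg (V : Mt d) (j' j : O.I) : 0 ≤ κκ O V j' j :=
  sum_nonneg fun _ _ => sum_nonneg fun _ _ => by split_ifs <;> positivity

theorem ph_κκ_le {V : Mt d} (hV : Vᴴ * V = 1) (j' j : O.I) :
    ph O j * κκ O V j' j ≤ kk O V j' j := by
  refine le_trans (le_of_eq ?_) (claimA hV j' j)
  rw [κκ, mul_sum]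
  refine sum_congr rfl fun y' _ => ?_
  rw [mul_sum]
  refine sum_congr rfl fun y _ => ?_
  by_cases h : y'.1.1 = j' ∧ y.1.1 = j
  · rw [if_pos h, fw_sq', h.2, mul_comm]
  · rw [if_neg h, mul_zero, zero_mul]

theorem ph_κκ_le' {V : Mt d} (hV : Vᴴ * V = 1) (j' j : O.I) :
    ph O j' * κκ O V j' j ≤ kk O V j' j := by
  refine le_trans (le_of_eq ?_) (claimB hV j' j)
  rw [κκ, mul_sum]
  refine sum_congr rfl fun y' _ => ?_
  rw [mul_sum]
  refine sum_congr rfl fun y _ => ?_
  by_cases h : y'.1.1 = j' ∧ y.1.1 = j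
  · rw [if_pos h, fw_sq', h.1, mul_comm]
  · rw [if_neg h, mul_zero, zero_mul]

theorem W2_eq_sum (V : Mt d) : W2 O (TT O V) = ∑ j', ∑ j, ph O j * κκ O V j' j := by
  rw [W2, split_rows]
  refine sum_congr rfl fun j' _ => sum_congr rfl fun j _ => ?_
  rw [κκ, mul_sum]
  refine sum_congr rfl fun y' _ => ?_
  rw [mul_sum]
  refine sum_congr rfl fun y _ => ?_
  by_cases h : y'.1.1 = j' ∧ y.1.1 = j
  · rw [if_pos h, if_pos h, fw_sq', h.2, mul_comm]
  · rw [if_neg h, if_neg h, mul_zero]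

theorem W2_adj_eq_sum (V : Mt d) : W2 O (TT O Vᴴ) = ∑ j', ∑ j, ph O j' * κκ O V j' j := by
  have h1 : W2 O (TT O Vᴴ) = ∑ y', ∑ y, ‖TT O V y' y‖ ^ 2 * fw O y' ^ 2 := by
    rw [W2, sum_comm]
    refine sum_congr rfl fun y' _ => sum_congr rfl fun y _ => ?_
    have h2 : TT O Vᴴ y y' = star (TT O V y' y) := by
      rw [TT, ← TV_conjTranspose, conjTranspose_apply]
    rw [h2, norm_star]
  rw [h1, split_rows]
  refine sum_congr rfl fun j' _ => sum_congr rfl fun j _ => ?_
  rw [κκ, mul_sum]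
  refine sum_congr rfl fun y' _ => ?_
  rw [mul_sum]
  refine sum_congr rfl fun y _ => ?_
  by_cases h : y'.1.1 = j' ∧ y.1.1 = j
  · rw [if_pos h, if_pos h, fw_sq', h.1, mul_comm]
  · rw [if_neg h, if_neg h, mul_zero]

/-- the downward loss is small -/
theorem sum_gd_le {V : Mt d} (hV : Vᴴ * V = 1) :
    ∑ j', ∑ j, gd (ph O j') (ph O j) * kk O V j' j ≤ D0 O - W2 O (TT O V) := by
  have h0 := sum_kk_le (O := O) hV
  have key : ∀ j' j : O.I, gd (ph O j') (ph O j) * kk O V j' j ≤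
      kk O V j' j - ph O j * κκ O V j' j := by
    intro j' j
    have a := ph_κκ_le hV j' j
    have b := ph_κκ_le' hV j' j
    have k0 := kk_nonneg (O := O) V j' j
    have p0 := ph_nonneg (O := O) j
    have p0' := ph_nonneg (O := O) j'
    rcases p0'.eq_or_lt with h | h
    · rw [kk_eq_zero (Or.inl h.symm)] at a ⊢
      linarith
    · rcases le_total (ph O j') (ph O j) with h2 | h2
      · have h3 : gd (ph O j') (ph O j) = 0 := by
          rw [gd, max_eq_left]
          rw [sub_nonpos, one_le_div h]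
          exact h2
        rw [h3]
        linarith
      · have h3 : gd (ph O j') (ph O j) = 1 - ph O j / ph O j' := by
          rw [gd, max_eq_right]
          rw [sub_nonneg, div_le_one h]
          exact h2
        rw [h3]
        have h4 : ph O j * κκ O V j' j ≤ ph O j / ph O j' * kk O V j' j := by
          have h5 : ph O j * κκ O V j' j = ph O j / ph O j' * (ph O j' * κκ O V j' j) := by
            field_simp
          rw [h5]
          exact mul_le_mul_of_nonneg_left b (div_nonneg p0 p0')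
        linarith
  have h1 := sum_le_sum fun j' (_ : j' ∈ univ) => sum_le_sum fun j (_ : j ∈ univ) => key j' j
  rw [W2_eq_sum]
  simp only [sum_sub_distrib] at h1
  linarith

/-- the weight of the adjoint -/
theorem W2_adj_ge {V : Mt d} (hV : Vᴴ * V = 1) :
    W2 O (TT O V) - ∑ j', ∑ j, gu (ph O j') (ph O j) * kk O V j' j ≤ W2 O (TT O Vᴴ) := by
  have key : ∀ j' j : O.I, ph O j * κκ O V j' j - gu (ph O j') (ph O j) * kk O V j' j ≤
      ph O j' * κκ O V j' j := by
    intro j' j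
    have a := ph_κκ_le hV j' j
    have k0 := kk_nonneg (O := O) V j' j
    have c0 := κκ_nonneg (O := O) V j' j
    have p0 := ph_nonneg (O := O) j
    have p0' := ph_nonneg (O := O) j'
    have g0 := gu_nonneg (ph O j') (ph O j)
    rcases le_total (ph O j) (ph O j') with h2 | h2
    · have h3 := mul_le_mul_of_nonneg_right h2 c0
      have h4 := mul_nonneg g0 k0
      linarith
    · rcases p0.eq_or_lt with h | h
      · have h3 := mul_nonneg g0 k0
        have h4 := mul_nonneg p0' c0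
        rw [← h, zero_mul]
        rw [← h] at h3
        linarith
      · have h3 : 1 - ph O j' / ph O j ≤ gu (ph O j') (ph O j) := le_max_right _ _
        have h4 : ph O j * κκ O V j' j - ph O j' * κκ O V j' j =
            (1 - ph O j' / ph O j) * (ph O j * κκ O V j' j) := by
          field_simp
        have h5 : (1 - ph O j' / ph O j) * (ph O j * κκ O V j' j) ≤
            gu (ph O j') (ph O j) * kk O V j' j := by
          refine (mul_le_mul_of_nonneg_right h3 (mul_nonneg p0 c0)).trans ?_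
          exact mul_le_mul_of_nonneg_left a g0
        linarith
  have h1 := sum_le_sum fun j' (_ : j' ∈ univ) => sum_le_sum fun j (_ : j ∈ univ) => key j' j
  rw [W2_eq_sum, W2_adj_eq_sum]
  simp only [sum_sub_distrib] at h1
  linarith

end

end Pool.Agent.Helper3.CK
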