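import Pool.Agent.Helper3.CK.Poi
import Pool.Agent.Helper64.CK.A3

/-!
# CK: the core theorem
-/

set_option autoImplicit false

namespace Pool.Agent.Helper3.CK

open Matrix Finset
open scoped ComplexOrder
open Pool.Agent.W661.RC Pool.Agent.W683.RC Pool.Agent.N303.KQ

noncomputable section

variable {d k : ℕ} {OA OB : Out d}

/-- mass of the pieces on the rows -/
def nu (OA OB : Out d) (i : OA.I) (j : OB.I) : ℝ := hs (pr OB j * pr OA i)

theorem nu_nonneg (i : OA.I) (j : OB.I) : 0 ≤ nu OA OB i j := Pool.Agent.W683.RC.hs_nonneg _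

theorem nu_eq_tr (i : OA.I) (j : OB.I) : nu OA OB i j = tr (pr OA i * pr OB j) := by
  rw [nu, hs_eq_tr, conjTranspose_mul, (pr_isPr j).1, (pr_isPr i).1]
  calc tr (pr OA i * pr OB j * (pr OB j * pr OA i)) =
      tr (pr OA i * (pr OB j * pr OB j) * pr OA i) := by simp only [Matrix.mul_assoc]
    _ = tr (pr OA i * pr OB j) := by
      rw [(pr_isPr j).2, tr_mul_comm, ← Matrix.mul_assoc, (pr_isPr i).2]

theorem nu_eq_zero (i : OA.I) {j : OB.I} (h : ph OB j = 0) : nu OA OB i j = 0 := by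
  rw [nu, pr_eq_zero h, Matrix.zero_mul, hs_zero]

theorem fx_cont (O : Out d) (j : O.I) : ContinuousOn (fun x => fx O x j) (Set.Ioi 0) := by
  unfold fx
  refine ContinuousOn.div continuousOn_const (by fun_prop) fun x hx => ?_
  have h1 := ph_nonneg (O := O) j
  have h2 : (0 : ℝ) < x := hx
  positivity

/-- the medians -/
theorem exists_med (i : OA.I) :
    ∃ x : ℝ, 0 < x ∧ ∑ j, nu OA OB i j * (fx OB x j - 1 / 2) = 0 := by
  set g : ℝ → ℝ := fun x => ∑ j, nu OA OB i j * (fx OB x j - 1 / 2) with hg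
  have hcont : ContinuousOn g (Set.Ioi 0) :=
    continuousOn_finsetSum _ fun j _ => ContinuousOn.mul continuousOn_const
      ((fx_cont OB j).sub continuousOn_const)
  set a : ℝ := 1 / (1 + ∑ j, ph OB j) with ha
  have hS : 0 ≤ ∑ j, ph OB j := sum_nonneg fun j _ => ph_nonneg j
  have ha0 : 0 < a := by positivity
  have hga : 0 ≤ g a := by
    refine sum_nonneg fun j _ => mul_nonneg (nu_nonneg i j) ?_
    have h1 : ph OB j ≤ ∑ j, ph OB j := single_le_sum (fun j _ => ph_nonneg j) (mem_univ j)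
    have h2 := ph_nonneg (O := OB) j
    have h3 : a * ph OB j ≤ 1 := by
      rw [ha, div_mul_eq_mul_div, div_le_one (by positivity)]
      linarith
    have h4 : 0 ≤ a * ph OB j := by positivity
    rw [fx, sub_nonneg]
    apply one_div_le_one_div_of_le <;> linarith
  set b : ℝ := 1 + ∑ j, (ph OB j)⁻¹ with hb
  have hS2 : 0 ≤ ∑ j, (ph OB j)⁻¹ := sum_nonneg fun j _ => inv_nonneg.2 (ph_nonneg j)
  have hb0 : 0 < b := by positivity
  have hgb : g b ≤ 0 := by
    refine sum_nonpos fun j _ => ?_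
    rcases (ph_nonneg (O := OB) j).eq_or_lt with h | h
    · rw [nu_eq_zero i h.symm, zero_mul]
    · refine mul_nonpos_of_nonneg_of_nonpos (nu_nonneg i j) ?_
      have h1 : (ph OB j)⁻¹ ≤ ∑ j, (ph OB j)⁻¹ :=
        single_le_sum (f := fun j => (ph OB j)⁻¹) (fun j _ => inv_nonneg.2 (ph_nonneg j))
          (mem_univ j)
      have h2 : 1 ≤ b * ph OB j := by
        calc (1 : ℝ) = (ph OB j)⁻¹ * ph OB j := (inv_mul_cancel₀ h.ne').symm
          _ ≤ b * ph OB j := mul_le_mul_of_nonneg_right (by rw [hb]; linarith) h.le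
      rw [fx, sub_nonpos]
      apply one_div_le_one_div_of_le <;> linarith
  obtain ⟨x, hx, hx2⟩ := isPreconnected_Ioi.intermediate_value (s := Set.Ioi (0 : ℝ)) (a := b)
    (b := a) hb0 ha0 hcont ⟨hgb, hga⟩
  exact ⟨x, hx, hx2⟩

theorem offdiag (i : OA.I) {x : ℝ} (hx : 0 < x) :
    hs ((1 - pr OA i) * (XX OB x * pr OA i)) ≤ 4 * hs (pr OA i - bb OA OB i) := by
  have hXb : XX OB x * bb OA OB i = bb OA OB i * XX OB x := Zf_comm (fx_CF x) (bb_mem i)
  have h0 : (1 - pr OA i) * pr OA i = 0 := by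
    rw [Matrix.sub_mul, Matrix.one_mul, (pr_isPr i).2, sub_self]
  have e : (1 - pr OA i) * (XX OB x * pr OA i) =
      (1 - pr OA i) * (XX OB x * (pr OA i - bb OA OB i)) -
      (1 - pr OA i) * ((pr OA i - bb OA OB i) * XX OB x) := by
    have h1 : (1 - pr OA i) * ((pr OA i - bb OA OB i) * XX OB x) =
        -((1 - pr OA i) * (bb OA OB i * XX OB x)) := by
      rw [Matrix.sub_mul (pr OA i), Matrix.mul_sub, ← Matrix.mul_assoc _ (pr OA i), h0,
        Matrix.zero_mul, zero_sub]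
    rw [h1, sub_neg_eq_add, ← Matrix.mul_add, ← hXb, ← Matrix.mul_add, sub_add_cancel]
  rw [e]
  refine (Pool.Agent.W683.RC.hs_sub_le _ _).trans ?_
  have h1 : hs ((1 - pr OA i) * (XX OB x * (pr OA i - bb OA OB i))) ≤
      hs (pr OA i - bb OA OB i) :=
    (hs_pr_mul_le_self (pr_compl (pr_isPr i)) _).trans
      (Pool.Agent.W683.RC.hs_mul_le (XX_contr hx) _)
  have h2 : hs ((1 - pr OA i) * ((pr OA i - bb OA OB i) * XX OB x)) ≤
      hs (pr OA i - bb OA OB i) :=
    (hs_pr_mul_le_self (pr_compl (pr_isPr i)) _).trans (hs_mul_le_right (XX_contr hx) _)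
  linarith

theorem pr_mul_Zf (φ : OB.I → ℝ) (j : OB.I) : pr OB j * Zf OB φ = ((φ j : ℝ) : ℂ) • pr OB j := by
  rw [Zf_eq, Matrix.mul_sum, sum_eq_single j]
  · rw [Matrix.mul_smul, (pr_isPr j).2]
  · intro i _ hi
    rw [Matrix.mul_smul, Pool.Agent.N957.NH.MONO.pr_mul_pr_ne (Ne.symm hi), smul_zero]
  · intro h; exact absurd (mem_univ _) h

theorem conc (i : OA.I) {x : ℝ} (hx : 0 < x) (lam : ℂ) :
    ∑ j, (fx OB x j - lam.re) ^ 2 * nu OA OB i j ≤
      hs (pr OA i * XX OB x * pr OA i - lam • pr OA i) + 4 * hs (pr OA i - bb OA OB i) := by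
  set p := pr OA i with hp
  have hpp : IsPr p := pr_isPr i
  set Y := XX OB x * p - lam • p with hY
  have h1 : ∑ j, (fx OB x j - lam.re) ^ 2 * nu OA OB i j ≤ ∑ j, hs (pr OB j * Y) := by
    refine sum_le_sum fun j _ => ?_
    have e : pr OB j * Y = (((fx OB x j : ℝ) : ℂ) - lam) • (pr OB j * p) := by
      rw [hY, Matrix.mul_sub, ← Matrix.mul_assoc, pr_mul_Zf, Matrix.mul_smul, Matrix.smul_mul,
        sub_smul]
    rw [e, Pool.Agent.W683.RC.hs_smul, nu]
    refine mul_le_mul_of_nonneg_right ?_ (Pool.Agent.W683.RC.hs_nonneg _)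
    have h2 := Complex.sq_norm (((fx OB x j : ℝ) : ℂ) - lam)
    rw [h2, Complex.normSq_apply]
    simp only [Complex.sub_re, Complex.ofReal_re]
    nlinarith [mul_self_nonneg (((fx OB x j : ℝ) : ℂ) - lam).im]
  have h2 : ∑ j, hs (pr OB j * Y) ≤ hs Y := sum_hs_pr_mul Y
  have h3 := hs_pyth_left hpp Y
  have e1 : p * Y = p * XX OB x * p - lam • p := by
    rw [hY, Matrix.mul_sub, Matrix.mul_smul, hpp.2, Matrix.mul_assoc]
  have e2 : (1 - p) * Y = (1 - p) * (XX OB x * p) := by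
    rw [hY, Matrix.mul_sub, Matrix.mul_smul, Matrix.sub_mul 1 p p, Matrix.one_mul, hpp.2, sub_self,
      smul_zero, sub_zero]
  have h4 := offdiag (OA := OA) (OB := OB) i hx
  rw [e1, e2] at h3
  linarith

theorem med_min (i : OA.I) {x : ℝ} (h : ∑ j, nu OA OB i j * (fx OB x j - 1 / 2) = 0) (μ : ℝ) :
    ∑ j, (fx OB x j - 1 / 2) ^ 2 * nu OA OB i j ≤ ∑ j, (fx OB x j - μ) ^ 2 * nu OA OB i j := by
  have e : ∑ j, (fx OB x j - μ) ^ 2 * nu OA OB i j = ∑ j, (fx OB x j - 1 / 2) ^ 2 * nu OA OB i j +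
      2 * (1 / 2 - μ) * ∑ j, nu OA OB i j * (fx OB x j - 1 / 2) +
      (1 / 2 - μ) ^ 2 * ∑ j, nu OA OB i j := by
    simp only [mul_sum, ← sum_add_distrib]
    exact sum_congr rfl fun j _ => by ring
  rw [e, h]
  have : 0 ≤ ∑ j, nu OA OB i j := sum_nonneg fun j _ => nu_nonneg i j
  nlinarith [mul_nonneg (sq_nonneg (1 / 2 - μ)) this]

theorem tr_pr_Zf (i : OA.I) (φ : OB.I → ℝ) :
    tr (pr OA i * Zf OB φ) = ∑ j, φ j * nu OA OB i j := by
  rw [Zf_eq, Matrix.mul_sum, tr_sum]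
  refine sum_congr rfl fun j _ => ?_
  rw [Matrix.mul_smul, tr_smul, nu_eq_tr]

theorem Va_le (i : OA.I) {x : ℝ} (hx : 0 < x)
    (h : ∑ j, nu OA OB i j * (fx OB x j - 1 / 2) = 0) (lam : ℂ) (V : Mt d) :
    Va OB (bb OA OB i) x ≤ hs (pr OA i * XX OB x * pr OA i - lam • pr OA i) +
      4 * hs (pr OA i - bb OA OB i) + 3 * er (pr OA i) (bb OA OB i) V := by
  have h1 := (abs_le.1 (abs_tr_sub_mul_le (pr_isPr (O := OA) i) (bb_psd (OB := OB) i) (tr_bb_le i)
    (Zf_psd (O := OB) (φ := fun j => (fx OB x j - 1 / 2) ^ 2) fun j => sq_nonneg _)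
    (Zf_le_one fun j => vf_le_one hx j))).1
  rw [Matrix.sub_mul, tr_sub, tr_pr_Zf] at h1
  have h2 := med_min i h lam.re
  have h3 := conc (OA := OA) (OB := OB) i hx lam
  have h4 : √(hs (pr OA i - bb OA OB i)) * √(tr (pr OA i)) ≤
      er (pr OA i) (bb OA OB i) V := by
    unfold er
    have : 0 ≤ √(hs (V * pr OA i - pr OA i * V)) * √(tr (pr OA i)) := by positivity
    linarith
  unfold Va
  linarith

variable {u : Fin k → Mt d} {K0 ε : ℝ}

/-- the sum of the upward losses -/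
theorem SU.Gusum (h : SU OA OB u K0 ε) (s : Fin k) :
    ∑ i, Gu OB (bb OA OB i) (u s) ≤ (704 * √ε + 160 * ε + 32 * ηη k K0 ε) * d := by
  choose xs hxs hmed using fun i : OA.I => exists_med (OA := OA) (OB := OB) i
  obtain ⟨lam, hlam⟩ := h.gap hxs
  have h1 : ∀ i, Gu OB (bb OA OB i) (u s) ≤ 16 * G1 OB (bb OA OB i) (u s) (xs i) +
      32 * (hs (pr OA i * XX OB (xs i) * pr OA i - lam i • pr OA i) +
      4 * hs (pr OA i - bb OA OB i) + 3 * er (pr OA i) (bb OA OB i) (u s)) +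
      128 * er (pr OA i) (bb OA OB i) (u s) := by
    intro i
    have a1 := Gu_le (V := u s) (bb_mem (OA := OA) (OB := OB) i) (bb_psd i) (h.un s) (hxs i)
    have a2 := Va_le i (hxs i) (hmed i) (lam i) (u s)
    have a3 := (abs_le.1 (abs_tr_conj_sub_mul_le' (pr_isPr (O := OA) i) (bb_psd (OB := OB) i)
      (tr_bb_le i) (h.un s)
      (Zf_psd (O := OB) (φ := fun j => (fx OB (xs i) j - 1 / 2) ^ 2) fun j => sq_nonneg _)
      (Zf_le_one fun j => vf_le_one (hxs i) j))).1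
    unfold Va at a1 a2
    linarith
  refine (sum_le_sum fun i _ => h1 i).trans ?_
  rw [sum_add_distrib, sum_add_distrib, ← mul_sum, ← mul_sum, ← mul_sum, sum_add_distrib,
    sum_add_distrib, ← mul_sum, ← mul_sum]
  have h2 := h.F3 s
  have h3 := h.G1sum s hxs
  have h4 := h.F1
  linarith

/-- the total error -/
def θθ (k : ℕ) (K0 ε : ℝ) : ℝ := 704 * √ε + 162 * ε + 32 * ηη k K0 ε

theorem SU.main (hA3 : S_A3) (h : SU OA OB u K0 ε) (s : Fin k) :
    NearInv OB (u s)ᴴ (4 * θθ k K0 ε) := by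
  have h1 := h.Gusum s
  have h2 := sum_gu (OA := OA) (OB := OB) (u s) (h.un s)
  have h3 := W2_adj_ge (O := OB) (h.un s)
  have h4 := W2_TT_ge (h.un s) (h.inv s)
  have h5 := h.blk.size
  refine hA3 d OB (u s)ᴴ (θθ k K0 ε) ?_ ?_ ?_
  · rw [conjTranspose_conjTranspose]
    exact unit_symm (h.un s)
  · have := h.εn
    have := h.K0n
    unfold θθ ηη
    positivity
  · unfold θθ
    linarith

/-- the core theorem -/
theorem s_core (hA3 : S_A3) : S_CORE := by
  intro k K0 ε0 hK0 hε0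
  set C : ℝ := 4 * (898 + 2592 * (K0 * k)) with hC
  have hC0 : 0 < C := by positivity
  set r : ℝ := min 1 (ε0 / C) with hr
  have hr0 : 0 < r := lt_min one_pos (by positivity)
  have hr1 : r ≤ 1 := min_le_left _ _
  refine ⟨r ^ 2, by positivity, ?_⟩
  intro d OA OB u hu hinv hblk hnear hsize s
  have hS : SU OA OB u K0 (r ^ 2) := ⟨hu, hinv, hblk, hnear, hsize, hK0, by positivity⟩
  have h1 := hS.main hA3 s
  have h2 : 4 * θθ k K0 (r ^ 2) ≤ ε0 := by
    have e : √(r ^ 2) = r := Real.sqrt_sq hr0.le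
    have h3 : r ^ 2 ≤ r := by nlinarith
    have h4 : 4 * θθ k K0 (r ^ 2) ≤ C * r := by
      unfold θθ ηη
      rw [e, hC]
      have h5 : K0 * (k * (66 * r + 15 * r ^ 2)) ≤ 81 * (K0 * k) * r := by
        have h6 : 0 ≤ K0 * k := by positivity
        nlinarith [mul_le_mul_of_nonneg_left h3 h6]
      linarith
    refine h4.trans ?_
    calc C * r ≤ C * (ε0 / C) := mul_le_mul_of_nonneg_left (min_le_right _ _) hC0.le
      _ = ε0 := by field_simp
  intro a ha ha1
  obtain ⟨b, hb, hb2⟩ := h1 a ha ha1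
  exact ⟨b, hb, hb2.trans (mul_le_mul_of_nonneg_right h2 (Nat.cast_nonneg _))⟩

end

end Pool.Agent.Helper3.CK
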