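import Pool.Agent.Helper3.CK.Core
import Pool.Agent.Helper12.CK.Clos
import Pool.Agent.Helper8.CK.Cons
import Pool.Agent.Helper8.CK.Grp
import Pool.Agent.Helper8.CK.Rf
import Pool.Agent.Helper8.CK.TGen
import Pool.Agent.Helper52.CK.MON
import Pool.Agent.Helper11.CK.TT12

/-!
# CK: the closure theorem and the group data
-/

set_option autoImplicit false

namespace Pool.Agent.Helper3.CK

open Pool.Agent.W661.RC (HasT)
open Pool.Agent.H21R2 (IsHyperlinear IsSofic)
open Pool.Agent.N44.NS (E3 el)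

/-- **The closure theorem.** -/
theorem s_clos : S_CLOS :=
  Pool.Agent.Helper12.CK.s_clos (s_core (Pool.Agent.Helper64.CK.s_a3 Pool.Agent.Helper52.CK.s_EB))

theorem tE3 : HasT (E3 (Polynomial (ZMod 257))) :=
  Pool.Agent.Helper11.CK.s_tt12 (ZMod 257) (by simp [ZMod.card]) (Polynomial (ZMod 257)) 1
    (fun _ => Polynomial.X) (by norm_num) (by
      rw [Set.range_const]
      exact Polynomial.adjoin_X)

/-- **The group data.** -/
theorem s_data : S_DATA := by
  obtain ⟨g, hg, hi⟩ := Pool.Agent.Helper52.CK.s_MON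
  exact Pool.Agent.Helper8.CK.s_grp (ZMod 257) (E3 (Polynomial (ZMod 257))) 5 g
    Pool.Agent.Helper8.CK.s_tgen Pool.Agent.Helper11.CK.s_tt12 (by simp [ZMod.card]) (by norm_num)
    tE3 (Pool.Agent.Helper8.CK.s_rf2 (ZMod 257) _ Pool.Agent.Helper8.CK.s_rf1) hg hi

end Pool.Agent.Helper3.CK
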