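import Pool.Agent.Helper3.CK.Cls

/-!
# CK: estimates for one piece
-/

set_option autoImplicit false

namespace Pool.Agent.Helper3.CK

open Matrix Finset
open scoped ComplexOrder
open Pool.Agent.W661.RC Pool.Agent.W683.RC Pool.Agent.N303.KQ

noncomputable section

variable {d : ℕ} {O : Out d}

/-- the test function -/
def fx (O : Out d) (x : ℝ) (j : O.I) : ℝ := 1 / (1 + x * ph O j)

theorem fx_CF (x : ℝ) : CF O (fx O x) := fun i j h => by rw [fx, fx, ph_CF i j h]

theorem fx_pos {x : ℝ} (hx : 0 < x) (j : O.I) : 0 < fx O x j := by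
  have := ph_nonneg (O := O) j
  unfold fx
  positivity

theorem fx_le_one {x : ℝ} (hx : 0 < x) (j : O.I) : fx O x j ≤ 1 := by
  have := ph_nonneg (O := O) j
  rw [fx, div_le_one (by positivity)]
  nlinarith [mul_nonneg hx.le this]

theorem fx_sub_le {x a a' : ℝ} (hx : 0 < x) (ha : 0 ≤ a) (ha' : 0 ≤ a') :
    1 / (1 + x * a) - 1 / (1 + x * a') ≤ gd a' a := by
  have h1 : 0 < 1 + x * a := by positivity
  have h2 : 0 < 1 + x * a' := by positivity
  rcases le_total a' a with h | h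
  · refine le_trans ?_ (gd_nonneg _ _)
    rw [sub_nonpos]
    apply one_div_le_one_div_of_le h2
    nlinarith [mul_le_mul_of_nonneg_left h hx.le]
  · rcases ha'.eq_or_lt with h0 | h0
    · have : a = 0 := le_antisymm (by rw [h0]; exact h) ha
      rw [← h0, this, sub_self]
      exact gd_nonneg _ _
    · refine le_trans ?_ (le_max_right _ _)
      have e1 : 1 / (1 + x * a) - 1 / (1 + x * a') = x * (a' - a) / ((1 + x * a) * (1 + x * a')) := by
        field_simp
        ring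
      have e2 : 1 - a / a' = (a' - a) / a' := by
        field_simp
      rw [e1, e2, div_le_div_iff₀ (by positivity) h0]
      have h3 : 0 ≤ a' - a := by linarith
      have h4 : x * a' ≤ (1 + x * a) * (1 + x * a') := by
        nlinarith [mul_nonneg hx.le ha, mul_nonneg hx.le ha', mul_nonneg (mul_nonneg hx.le ha)
          (mul_nonneg hx.le ha')]
      calc x * (a' - a) * a' = (a' - a) * (x * a') := by ring
        _ ≤ (a' - a) * ((1 + x * a) * (1 + x * a')) := mul_le_mul_of_nonneg_left h4 h3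

/-- the first order transport -/
def G1 (O : Out d) (b V : Mt d) (x : ℝ) : ℝ :=
  ∑ j', ∑ j, |fx O x j - fx O x j'| * mm O b V j' j

/-- the downward transport -/
def Gd (O : Out d) (b V : Mt d) : ℝ := ∑ j', ∑ j, gd (ph O j') (ph O j) * mm O b V j' j

theorem one_psd' : (1 : Mt d).PosSemidef := Matrix.PosSemidef.one

theorem VpV_le {V : Mt d} (hV : Vᴴ * V = 1) : Le (V * pO O * Vᴴ) 1 :=
  le_one_conj hV (pr_le_one pO_pr)

theorem mul_Zf_one {b : Mt d} (hb : b ∈ O.alg) : b * Zf O (fun _ => 1) = b := by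
  rw [Zf_one, mul_pO hb]

/-- (2b) -/
theorem G1_le {b V : Mt d} (hb : b ∈ O.alg) (hb0 : b.PosSemidef) (hV : Vᴴ * V = 1) {x : ℝ}
    (hx : 0 < x) :
    G1 O b V x ≤ tr (b * Zf O (fx O x)) - tr (b * (V * Zf O (fx O x) * Vᴴ)) +
      2 * Gd O b V := by
  have h1 : G1 O b V x ≤ ∑ j', ∑ j, ((fx O x j' * 1 * mm O b V j' j) -
      (1 * fx O x j * mm O b V j' j) + 2 * (gd (ph O j') (ph O j) * mm O b V j' j)) := by
    refine sum_le_sum fun j' _ => sum_le_sum fun j _ => ?_
    have m0 := mm_nonneg (V := V) hb hb0 j' j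
    have h2 : |fx O x j - fx O x j'| ≤ fx O x j' - fx O x j + 2 * gd (ph O j') (ph O j) := by
      have h3 := fx_sub_le hx (ph_nonneg (O := O) j) (ph_nonneg (O := O) j')
      have h4 := gd_nonneg (ph O j') (ph O j)
      rw [abs_le]
      unfold fx
      constructor <;> linarith
    have h3 := mul_le_mul_of_nonneg_right h2 m0
    linarith
  refine h1.trans ?_
  have e : ∑ j', ∑ j, ((fx O x j' * 1 * mm O b V j' j) -
      (1 * fx O x j * mm O b V j' j) + 2 * (gd (ph O j') (ph O j) * mm O b V j' j)) =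
      tr (b * Zf O (fx O x) * (V * Zf O (fun _ => 1) * Vᴴ)) -
        tr (b * Zf O (fun _ => 1) * (V * Zf O (fx O x) * Vᴴ)) + 2 * Gd O b V := by
    rw [← sum_mm b V (fx_CF x) (fun _ => 1), ← sum_mm b V (φ := fun _ => 1) (fun _ _ _ => rfl)
      (fx O x), Gd]
    simp only [sum_add_distrib, sum_sub_distrib, mul_sum]
  rw [e, mul_Zf_one hb, Zf_one]
  have h5 : tr (b * Zf O (fx O x) * (V * pO O * Vᴴ)) ≤ tr (b * Zf O (fx O x)) := by
    rw [tr_mul_comm]
    exact tr_mul_le_of_le_one (VpV_le hV) (psd_mul_Zf (fx_CF x) (fun j => (fx_pos hx j).le) hb hb0)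
  linarith

/-- (2a) -/
theorem sq_le {b V : Mt d} (hb : b ∈ O.alg) (hb0 : b.PosSemidef) (hV : Vᴴ * V = 1) {x : ℝ}
    (hx : 0 < x) :
    tr (b * ((V * Zf O (fx O x) * Vᴴ - Zf O (fx O x)) * (V * Zf O (fx O x) * Vᴴ -
      Zf O (fx O x)))) ≤ G1 O b V x + tr (b * (1 - V * pO O * Vᴴ)) := by
  set X := Zf O (fx O x) with hX
  set W := V * X * Vᴴ with hW
  have hXb : X * b = b * X := Zf_comm (fx_CF x) hb
  have hWW : W * W = V * Zf O (fun j => fx O x j * fx O x j) * Vᴴ := by
    rw [hW, ← Zf_mul, ← hX]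
    calc V * X * Vᴴ * (V * X * Vᴴ) = V * X * (Vᴴ * V) * X * Vᴴ := by simp only [Matrix.mul_assoc]
      _ = _ := by rw [hV, Matrix.mul_one]; simp only [Matrix.mul_assoc]
  have e1 : tr (b * ((W - X) * (W - X))) = tr (b * (W * W)) - 2 * tr (b * X * W) +
      tr (b * (X * X)) := by
    have h1 : tr (b * (W * X)) = tr (b * X * W) := by
      calc tr (b * (W * X)) = tr (b * W * X) := by rw [Matrix.mul_assoc b W X]
        _ = tr (X * (b * W)) := tr_mul_comm _ _
        _ = tr (X * b * W) := by rw [Matrix.mul_assoc X b W]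
        _ = _ := by rw [hXb]
    have h2 : b * ((W - X) * (W - X)) = b * (W * W) - b * (W * X) - b * X * W + b * (X * X) := by
      simp only [Matrix.mul_sub, Matrix.sub_mul, Matrix.mul_assoc]
      abel
    rw [h2, tr_add, tr_sub, tr_sub, h1]
    ring
  have e2 : tr (b * (W * W)) = ∑ j', ∑ j, 1 * (fx O x j * fx O x j) * mm O b V j' j := by
    rw [sum_mm b V (φ := fun _ => 1) (fun _ _ _ => rfl) (fun j => fx O x j * fx O x j),
      mul_Zf_one hb, hWW]
  have e3 : tr (b * X * W) = ∑ j', ∑ j, fx O x j' * fx O x j * mm O b V j' j := by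
    rw [sum_mm b V (fx_CF x) (fx O x)]
  have hCF2 : CF O (fun j => fx O x j * fx O x j) := fun i j h => by
    beta_reduce
    rw [fx_CF x i j h]
  have e4 : tr (b * (X * X)) = ∑ j', ∑ j, (fx O x j' * fx O x j') * 1 * mm O b V j' j +
      tr (b * Zf O (fun j => fx O x j * fx O x j) * (1 - V * pO O * Vᴴ)) := by
    rw [sum_mm b V hCF2 (fun _ => 1), Zf_one, hX, Zf_mul, Matrix.mul_sub, tr_sub, Matrix.mul_one]
    ring
  have h5 : tr (b * Zf O (fun j => fx O x j * fx O x j) * (1 - V * pO O * Vᴴ)) ≤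
      tr (b * (1 - V * pO O * Vᴴ)) := by
    have h6 : 0 ≤ tr (b * Zf O (fun j => 1 - fx O x j * fx O x j) * (1 - V * pO O * Vᴴ)) := by
      refine Pool.Agent.W683.RC.tr_mul_nonneg (psd_mul_Zf (fun i j h => ?_) (fun j => ?_) hb hb0)
        (VpV_le hV)
      · beta_reduce
        rw [fx_CF x i j h]
      · have h7 := fx_le_one hx j
        have h8 := fx_pos hx j
        nlinarith
    have h7 : b * Zf O (fun j => 1 - fx O x j * fx O x j) =
        b - b * Zf O (fun j => fx O x j * fx O x j) := by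
      have h8 : Zf O (fun j => 1 - fx O x j * fx O x j) =
          pO O - Zf O (fun j => fx O x j * fx O x j) := by
        rw [← Zf_one, Zf_eq, Zf_eq, Zf_eq, ← sum_sub_distrib]
        refine sum_congr rfl fun j _ => ?_
        rw [← sub_smul]
        push_cast
        rfl
      rw [h8, Matrix.mul_sub, mul_pO hb]
    rw [h7, Matrix.sub_mul, tr_sub] at h6
    linarith
  rw [e1, e2, e3, e4]
  have h9 : ∑ j', ∑ j, 1 * (fx O x j * fx O x j) * mm O b V j' j -
      2 * ∑ j', ∑ j, fx O x j' * fx O x j * mm O b V j' j +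
      ∑ j', ∑ j, (fx O x j' * fx O x j') * 1 * mm O b V j' j ≤ G1 O b V x := by
    have e5 : ∑ j', ∑ j, 1 * (fx O x j * fx O x j) * mm O b V j' j -
      2 * ∑ j', ∑ j, fx O x j' * fx O x j * mm O b V j' j +
      ∑ j', ∑ j, (fx O x j' * fx O x j') * 1 * mm O b V j' j =
      ∑ j', ∑ j, (fx O x j - fx O x j') ^ 2 * mm O b V j' j := by
      simp only [mul_sum, ← sum_sub_distrib, ← sum_add_distrib]
      exact sum_congr rfl fun j' _ => sum_congr rfl fun j _ => by ring
    rw [e5, G1]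
    refine sum_le_sum fun j' _ => sum_le_sum fun j _ => ?_
    refine mul_le_mul_of_nonneg_right ?_ (mm_nonneg hb hb0 j' j)
    have a1 := fx_le_one hx j
    have a2 := fx_pos hx j
    have a3 := fx_le_one hx j'
    have a4 := fx_pos hx j'
    have h10 : |fx O x j - fx O x j'| ≤ 1 := by
      rw [abs_le]
      constructor <;> linarith
    rw [← sq_abs]
    nlinarith [abs_nonneg (fx O x j - fx O x j')]
  linarith

/-- the upward transport -/
def Gu (O : Out d) (b V : Mt d) : ℝ := ∑ j', ∑ j, gu (ph O j') (ph O j) * mm O b V j' j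

/-- the variance -/
def Va (O : Out d) (b : Mt d) (x : ℝ) : ℝ :=
  tr (b * Zf O (fun j => (fx O x j - 1 / 2) ^ 2))

theorem gu_le {x a a' : ℝ} (hx : 0 < x) (ha : 0 < a) (ha' : 0 ≤ a') :
    gu a' a ≤ 16 * |1 / (1 + x * a) - 1 / (1 + x * a')| + 16 * (1 / (1 + x * a) - 1 / 2) ^ 2 +
      16 * (1 / (1 + x * a') - 1 / 2) ^ 2 := by
  have h1 : 0 < 1 + x * a := by positivity
  have h2 : 0 < 1 + x * a' := by positivity
  set φ := 1 / (1 + x * a) with hφ
  set φ' := 1 / (1 + x * a') with hφ'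
  have n1 := abs_nonneg (φ - φ')
  by_cases hc : |φ - 1 / 2| ≤ 1 / 4 ∧ |φ' - 1 / 2| ≤ 1 / 4
  · obtain ⟨c1, c2⟩ := hc
    rw [abs_le] at c1 c2
    have hlt : φ < 1 := by linarith
    have e : 1 - a' / a = (φ' - φ) / (φ' * (1 - φ)) := by
      have hp : φ' ≠ 0 := by linarith
      have hq : 1 - φ ≠ 0 := by linarith
      have hx' : x ≠ 0 := hx.ne'
      have ha0 : a ≠ 0 := ha.ne'
      have e1 : 1 - φ = x * a / (1 + x * a) := by
        rw [hφ]; field_simp; ring
      have e2 : φ' - φ = x * (a - a') / ((1 + x * a) * (1 + x * a')) := by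
        rw [hφ, hφ']; field_simp; ring
      rw [e1, e2, hφ']
      field_simp
    have h3 : 1 - a' / a ≤ 16 * |φ - φ'| := by
      rw [e, div_le_iff₀ (mul_pos (by linarith) (by linarith))]
      have h4 : (1 / 16 : ℝ) ≤ φ' * (1 - φ) := by nlinarith
      have h5 : φ' - φ ≤ |φ - φ'| := by
        rw [abs_sub_comm]
        exact le_abs_self _
      nlinarith
    rw [gu]
    refine max_le (by positivity) ?_
    have h6 : 0 ≤ (φ - 1 / 2) ^ 2 := sq_nonneg _
    have h7 : 0 ≤ (φ' - 1 / 2) ^ 2 := sq_nonneg _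
    linarith
  · refine (gu_le_one ha' ha.le).trans ?_
    rw [not_and_or, not_le, not_le] at hc
    have h6 : 0 ≤ (φ - 1 / 2) ^ 2 := sq_nonneg _
    have h7 : 0 ≤ (φ' - 1 / 2) ^ 2 := sq_nonneg _
    rcases hc with h | h
    · have h8 : (1 / 4 : ℝ) ^ 2 ≤ (φ - 1 / 2) ^ 2 := by
        rw [← sq_abs (φ - 1 / 2)]
        exact pow_le_pow_left₀ (by norm_num) h.le 2
      linarith
    · have h8 : (1 / 4 : ℝ) ^ 2 ≤ (φ' - 1 / 2) ^ 2 := by
        rw [← sq_abs (φ' - 1 / 2)]
        exact pow_le_pow_left₀ (by norm_num) h.le 2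
      linarith

theorem vf_CF (x : ℝ) : CF O (fun j => (fx O x j - 1 / 2) ^ 2) := fun i j h => by
  beta_reduce
  rw [fx_CF x i j h]

theorem vf_le_one {x : ℝ} (hx : 0 < x) (j : O.I) : (fx O x j - 1 / 2) ^ 2 ≤ 1 := by
  have h1 := fx_pos hx j
  have h2 := fx_le_one hx j
  nlinarith

/-- (5), one piece -/
theorem Gu_le {b V : Mt d} (hb : b ∈ O.alg) (hb0 : b.PosSemidef) (hV : Vᴴ * V = 1) {x : ℝ}
    (hx : 0 < x) :
    Gu O b V ≤ 16 * G1 O b V x + 16 * Va O b x +
      16 * tr (b * (V * Zf O (fun j => (fx O x j - 1 / 2) ^ 2) * Vᴴ)) := by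
  have h1 : Gu O b V ≤ ∑ j', ∑ j, (16 * (|fx O x j - fx O x j'| * mm O b V j' j) +
      16 * (((fx O x j' - 1 / 2) ^ 2) * 1 * mm O b V j' j) +
      16 * (1 * ((fx O x j - 1 / 2) ^ 2) * mm O b V j' j)) := by
    refine sum_le_sum fun j' _ => sum_le_sum fun j _ => ?_
    have m0 := mm_nonneg (V := V) hb hb0 j' j
    rcases (ph_nonneg (O := O) j).eq_or_lt with h | h
    · have h2 : mm O b V j' j = 0 := by
        rw [mm, pr_eq_zero h.symm]
        simp [Pool.Agent.W683.RC.tr_zero]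
      rw [h2]
      simp
    · have h3 := gu_le hx h (ph_nonneg (O := O) j')
      have h4 := mul_le_mul_of_nonneg_right h3 m0
      refine h4.trans (le_of_eq ?_)
      unfold fx
      ring
  refine h1.trans ?_
  have e : ∑ j', ∑ j, (16 * (|fx O x j - fx O x j'| * mm O b V j' j) +
      16 * (((fx O x j' - 1 / 2) ^ 2) * 1 * mm O b V j' j) +
      16 * (1 * ((fx O x j - 1 / 2) ^ 2) * mm O b V j' j)) = 16 * G1 O b V x +
      16 * tr (b * Zf O (fun j => (fx O x j - 1 / 2) ^ 2) * (V * Zf O (fun _ => 1) * Vᴴ)) +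
      16 * tr (b * Zf O (fun _ => 1) * (V * Zf O (fun j => (fx O x j - 1 / 2) ^ 2) * Vᴴ)) := by
    rw [← sum_mm b V (vf_CF x) (fun _ => 1), ← sum_mm b V (φ := fun _ => 1) (fun _ _ _ => rfl)
      (fun j => (fx O x j - 1 / 2) ^ 2), G1]
    simp only [sum_add_distrib, mul_sum]
  rw [e, mul_Zf_one hb, Zf_one, Va]
  have h5 : tr (b * Zf O (fun j => (fx O x j - 1 / 2) ^ 2) * (V * pO O * Vᴴ)) ≤
      tr (b * Zf O (fun j => (fx O x j - 1 / 2) ^ 2)) := by
    rw [tr_mul_comm]
    exact tr_mul_le_of_le_one (VpV_le hV) (psd_mul_Zf (vf_CF x) (fun j => sq_nonneg _) hb hb0)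
  linarith

end

end Pool.Agent.Helper3.CK
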