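import Pool.Agent.Helper3.CK.Sum
import Pool.Graph.R_pool_sql_team_seeded_63374d34.N957.NH.TRMIN

/-!
# CK: the spectral gap on the pieces
-/

set_option autoImplicit false

namespace Pool.Agent.Helper3.CK

open Matrix Finset
open scoped ComplexOrder
open Pool.Agent.W661.RC Pool.Agent.W683.RC Pool.Agent.N303.KQ
open Pool.Agent.N957.NH.MONO (pr_mul_pr_ne)

noncomputable section

variable {d k : ℕ} {OA OB : Out d}

theorem sum_hs_mul_pr (x : Mt d) : ∑ i, hs (x * pr OA i) = hs (x * pO OA) := by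
  rw [← tr_sq_mul_pr rfl pO_pr, ← sum_pr, Matrix.mul_sum, tr_sum]
  exact sum_congr rfl fun i _ => (tr_sq_mul_pr rfl (pr_isPr i)).symm

theorem mul_pr_sum (y : OA.I → Mt d) (j : OA.I) :
    (∑ i, y i * pr OA i) * pr OA j = y j * pr OA j := by
  rw [Matrix.sum_mul, sum_eq_single j]
  · rw [Matrix.mul_assoc, (pr_isPr j).2]
  · intro i _ hi
    rw [Matrix.mul_assoc, pr_mul_pr_ne hi, Matrix.mul_zero]
  · intro h; exact absurd (mem_univ _) h

/-- orthogonality of the pieces -/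
theorem hs_sum_mul_pr (y : OA.I → Mt d) :
    hs (∑ i, y i * pr OA i) = ∑ i, hs (y i * pr OA i) := by
  have h1 : (∑ i, y i * pr OA i) * pO OA = ∑ i, y i * pr OA i := by
    rw [← sum_pr, Matrix.mul_sum]
    exact sum_congr rfl fun j _ => mul_pr_sum y j
  have h2 := sum_hs_mul_pr (OA := OA) (∑ i, y i * pr OA i)
  rw [h1] at h2
  rw [← h2]
  exact sum_congr rfl fun j _ => by rw [mul_pr_sum]

theorem hs_sum_pr_mul (y : OA.I → Mt d) :
    hs (∑ i, pr OA i * y i) = ∑ i, hs (pr OA i * y i) := by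
  have h := hs_sum_mul_pr (OA := OA) fun i => (y i)ᴴ
  rw [← Pool.Agent.W683.RC.hs_conjTranspose (∑ i, pr OA i * y i), conjTranspose_sum]
  have e : ∀ i, (pr OA i * y i)ᴴ = (y i)ᴴ * pr OA i := fun i => by
    rw [conjTranspose_mul, (pr_isPr i).1]
  simp only [e]
  rw [h]
  refine sum_congr rfl fun i _ => ?_
  rw [← e i, Pool.Agent.W683.RC.hs_conjTranspose]

/-- the central elements -/
abbrev XX (OB : Out d) (x : ℝ) : Mt d := Zf OB (fx OB x)

theorem XX_psd {x : ℝ} (hx : 0 < x) : (XX OB x).PosSemidef := Zf_psd fun j => (fx_pos hx j).le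

theorem XX_le_one {x : ℝ} (hx : 0 < x) : Le (XX OB x) 1 := Zf_le_one fun j => fx_le_one hx j

theorem XX_contr {x : ℝ} (hx : 0 < x) : Le ((XX OB x)ᴴ * XX OB x) 1 :=
  Pool.Agent.W683.RC.sq_le_one (XX_psd hx) (XX_le_one hx)

/-- the test matrix -/
def XT (OA OB : Out d) (xs : OA.I → ℝ) : Mt d := ∑ i, pr OA i * XX OB (xs i) * pr OA i

theorem XT_contr {xs : OA.I → ℝ} (hx : ∀ i, 0 < xs i) : Le ((XT OA OB xs)ᴴ * XT OA OB xs) 1 := by
  refine Pool.Agent.W683.RC.sq_le_one ?_ ?_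
  · refine Matrix.posSemidef_sum _ fun i _ => ?_
    have := (XX_psd (OB := OB) (hx i)).mul_mul_conjTranspose_same (pr OA i)
    rwa [(pr_isPr i).1] at this
  · have h1 : Le (XT OA OB xs) (∑ i, pr OA i) := by
      refine Le_sum _ _ _ fun i _ => ?_
      have := Le_conj' (XX_le_one (OB := OB) (hx i)) (pr OA i)
      rwa [(pr_isPr i).1, Matrix.mul_one, (pr_isPr i).2] at this
    rw [sum_pr] at h1
    exact Le_trans h1 (pr_le_one pO_pr)

/-- the difference -/
def Δd (OB : Out d) (V : Mt d) (x : ℝ) : Mt d := V * XX OB x * Vᴴ - XX OB x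

theorem Δd_herm (V : Mt d) (x : ℝ) : (Δd OB V x)ᴴ = Δd OB V x := by
  rw [Δd, conjTranspose_sub, conjTranspose_mul, conjTranspose_mul, conjTranspose_conjTranspose,
    Zf_conj, Matrix.mul_assoc]

theorem Δd_sq_psd (V : Mt d) (x : ℝ) : (Δd OB V x * Δd OB V x).PosSemidef := by
  have := posSemidef_conjTranspose_mul_self (Δd OB V x)
  rwa [Δd_herm] at this

theorem Δd_sq_le {V : Mt d} (hV : Vᴴ * V = 1) {x : ℝ} (hx : 0 < x) :
    Le (Δd OB V x * Δd OB V x) 1 := by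
  refine sq_le_one_of_abs ?_ ?_
  · show (1 - Δd OB V x).PosSemidef
    have h1 : (1 - V * XX OB x * Vᴴ).PosSemidef := le_one_conj hV (XX_le_one hx)
    have h2 := h1.add (XX_psd (OB := OB) hx)
    have e : 1 - Δd OB V x = 1 - V * XX OB x * Vᴴ + XX OB x := by
      rw [Δd]; abel
    rwa [e]
  · show (Δd OB V x - (-1)).PosSemidef
    have h1 : (1 - XX OB x).PosSemidef := XX_le_one hx
    have h2 := h1.add (psd_conj (V := V) (XX_psd (OB := OB) hx))
    have e : Δd OB V x - (-1) = 1 - XX OB x + V * XX OB x * Vᴴ := by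
      rw [Δd]; abel
    rwa [e]

theorem hs_pr_Δ (V : Mt d) (x : ℝ) (i : OA.I) :
    hs (pr OA i * Δd OB V x) = tr (pr OA i * (Δd OB V x * Δd OB V x)) := by
  rw [hs_eq_tr', conjTranspose_mul, Δd_herm, (pr_isPr i).1]
  calc tr (pr OA i * Δd OB V x * (Δd OB V x * pr OA i)) =
      tr (pr OA i * (Δd OB V x * Δd OB V x) * pr OA i) := by simp only [Matrix.mul_assoc]
    _ = _ := by rw [tr_mul_comm, ← Matrix.mul_assoc, (pr_isPr i).2]

/-- (3a) -/
theorem hs_comm_XT {V : Mt d} (hV : Vᴴ * V = 1) {xs : OA.I → ℝ} (hx : ∀ i, 0 < xs i) :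
    hs (V * XT OA OB xs - XT OA OB xs * V) ≤
      6 * ∑ i, hs (V * pr OA i - pr OA i * V) +
        3 * ∑ i, tr (pr OA i * (Δd OB V (xs i) * Δd OB V (xs i))) := by
  have e : V * XT OA OB xs - XT OA OB xs * V =
      ∑ i, ((V * pr OA i - pr OA i * V) * XX OB (xs i)) * pr OA i +
      ∑ i, (pr OA i * (V * XX OB (xs i) - XX OB (xs i) * V)) * pr OA i +
      ∑ i, pr OA i * (XX OB (xs i) * (V * pr OA i - pr OA i * V)) := by
    rw [XT, Matrix.mul_sum, Matrix.sum_mul, ← sum_sub_distrib, ← sum_add_distrib,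
      ← sum_add_distrib]
    refine sum_congr rfl fun i _ => ?_
    noncomm_ring
  have h1 : ∀ i, hs (((V * pr OA i - pr OA i * V) * XX OB (xs i)) * pr OA i) ≤
      hs (V * pr OA i - pr OA i * V) := fun i =>
    (hs_mul_pr_le_self (pr_isPr i) _).trans (hs_mul_le_right (XX_contr (hx i)) _)
  have h3 : ∀ i, hs (pr OA i * (XX OB (xs i) * (V * pr OA i - pr OA i * V))) ≤
      hs (V * pr OA i - pr OA i * V) := fun i =>
    (hs_pr_mul_le_self (pr_isPr i) _).trans (Pool.Agent.W683.RC.hs_mul_le (XX_contr (hx i)) _)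
  have h2 : ∀ i, hs ((pr OA i * (V * XX OB (xs i) - XX OB (xs i) * V)) * pr OA i) ≤
      tr (pr OA i * (Δd OB V (xs i) * Δd OB V (xs i))) := by
    intro i
    refine (hs_mul_pr_le_self (pr_isPr i) _).trans (le_of_eq ?_)
    rw [← hs_pr_Δ]
    have e2 : pr OA i * (V * XX OB (xs i) - XX OB (xs i) * V) = pr OA i * Δd OB V (xs i) * V := by
      rw [Δd, Matrix.mul_assoc, Matrix.sub_mul _ _ V]
      congr 2
      rw [Matrix.mul_assoc _ Vᴴ V, hV, Matrix.mul_one]
    rw [e2, hs_mul_unit hV]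
  rw [e]
  refine (Pool.Agent.W683.RC.hs_add3_le _ _ _).trans ?_
  rw [hs_sum_mul_pr, hs_sum_mul_pr, hs_sum_pr_mul]
  have s1 := sum_le_sum fun i (_ : i ∈ univ) => h1 i
  have s2 := sum_le_sum fun i (_ : i ∈ univ) => h2 i
  have s3 := sum_le_sum fun i (_ : i ∈ univ) => h3 i
  linarith

variable {u : Fin k → Mt d} {K0 ε : ℝ}

theorem SU.G1sum (h : SU OA OB u K0 ε) (s : Fin k) {xs : OA.I → ℝ} (hx : ∀ i, 0 < xs i) :
    ∑ i, G1 OB (bb OA OB i) (u s) (xs i) ≤ (16 * √ε + 2 * ε) * d := by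
  have h1 : ∀ i, G1 OB (bb OA OB i) (u s) (xs i) ≤
      8 * er (pr OA i) (bb OA OB i) (u s) + 2 * Gd OB (bb OA OB i) (u s) := by
    intro i
    have a1 := G1_le (V := u s) (bb_mem (OA := OA) (OB := OB) i) (bb_psd i) (h.un s) (hx i)
    have a2 := (abs_le.1 (abs_tr_conj_sub_mul_le' (pr_isPr (O := OA) i) (bb_psd (OB := OB) i) (tr_bb_le i)
      (h.un s) (XX_psd (OB := OB) (hx i)) (XX_le_one (hx i)))).2
    linarith
  refine (sum_le_sum fun i _ => h1 i).trans ?_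
  rw [sum_add_distrib, ← mul_sum, ← mul_sum]
  have h2 := h.F3 s
  have h3 := sum_gd (OA := OA) (OB := OB) (u s)
  have h4 := sum_gd_le (O := OB) (h.un s)
  have h5 := W2_TT_ge (h.un s) (h.inv s)
  linarith

theorem SU.defect (h : SU OA OB u K0 ε) (s : Fin k) :
    ∑ i, tr (bb OA OB i * (1 - u s * pO OB * (u s)ᴴ)) ≤ ε * d := by
  rw [← tr_sum, ← Matrix.sum_mul]
  have hP : IsPr (u s * pO OB * (u s)ᴴ) := Pool.Agent.N957.NH.MONO.conj_isPr (h.un s) pO_pr
  have h1 : tr ((∑ i, bb OA OB i) * (1 - u s * pO OB * (u s)ᴴ)) ≤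
      tr (1 - u s * pO OB * (u s)ᴴ) := by
    refine tr_mul_le_of_le_one ?_ (pr_psd (pr_compl hP))
    exact Le_trans (rest_psd (OA := OA) (OB := OB)) (pr_le_one pO_pr)
  refine h1.trans ?_
  rw [tr_sub, tr_one, Pool.Agent.N957.NH.MONO.conj_tr (h.un s), tr_pO]
  exact h.size

/-- (3a) for the pieces -/
theorem SU.sqsum (h : SU OA OB u K0 ε) (s : Fin k) {xs : OA.I → ℝ} (hx : ∀ i, 0 < xs i) :
    ∑ i, tr (pr OA i * (Δd OB (u s) (xs i) * Δd OB (u s) (xs i))) ≤ (22 * √ε + 3 * ε) * d := by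
  have h1 : ∀ i, tr (pr OA i * (Δd OB (u s) (xs i) * Δd OB (u s) (xs i))) ≤
      G1 OB (bb OA OB i) (u s) (xs i) + tr (bb OA OB i * (1 - u s * pO OB * (u s)ᴴ)) +
        3 * er (pr OA i) (bb OA OB i) (u s) := by
    intro i
    have a1 := sq_le (V := u s) (bb_mem (OA := OA) (OB := OB) i) (bb_psd i) (h.un s) (hx i)
    have a2 := (abs_le.1 (abs_tr_sub_mul_le (pr_isPr (O := OA) i) (bb_psd (OB := OB) i)
      (tr_bb_le i) (Δd_sq_psd (OB := OB) (u s) (xs i)) (Δd_sq_le (h.un s) (hx i)))).2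
    rw [Matrix.sub_mul, tr_sub] at a2
    have a3 : √(hs (pr OA i - bb OA OB i)) * √(tr (pr OA i)) ≤
        er (pr OA i) (bb OA OB i) (u s) := by
      unfold er
      have : 0 ≤ √(hs (u s * pr OA i - pr OA i * u s)) * √(tr (pr OA i)) := by positivity
      linarith
    unfold Δd at a2 ⊢
    linarith
  refine (sum_le_sum fun i _ => h1 i).trans ?_
  rw [sum_add_distrib, sum_add_distrib, ← mul_sum]
  have h2 := h.F3 s
  have h3 := h.G1sum s hx
  have h4 := h.defect s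
  linarith

theorem SU.enXT (h : SU OA OB u K0 ε) {xs : OA.I → ℝ} (hx : ∀ i, 0 < xs i) :
    en u (XT OA OB xs) ≤ k * (66 * √ε + 15 * ε) * d := by
  have h1 : ∀ s, hs (u s * XT OA OB xs - XT OA OB xs * u s) ≤ (66 * √ε + 15 * ε) * d := by
    intro s
    have a1 := hs_comm_XT (OB := OB) (h.un s) hx
    have a2 := h.sqsum s hx
    have a3 := h.F2 s
    linarith
  rw [en]
  refine (sum_le_sum fun s _ => h1 s).trans (le_of_eq ?_)
  rw [sum_const, card_univ, Fintype.card_fin, nsmul_eq_mul]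
  ring

/-- the total error of the gap inequality -/
def ηη (k : ℕ) (K0 ε : ℝ) : ℝ := K0 * (k * (66 * √ε + 15 * ε)) + ε

/-- (3b): the test functions are almost constant on the pieces -/
theorem SU.gap (h : SU OA OB u K0 ε) {xs : OA.I → ℝ} (hx : ∀ i, 0 < xs i) :
    ∃ lam : OA.I → ℂ, ∑ i, hs (pr OA i * XX OB (xs i) * pr OA i - lam i • pr OA i) ≤
      ηη k K0 ε * d := by
  obtain ⟨a, ha, -, ha2⟩ := h.blk.near _ (XT_contr (OB := OB) hx)
  choose lam hlam using fun i => Pool.Agent.N957.NH.TRMIN.corner i ha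
  refine ⟨lam, ?_⟩
  have h1 : ∀ i, pr OA i * XX OB (xs i) * pr OA i - lam i • pr OA i =
      pr OA i * (XT OA OB xs - a) * pr OA i := by
    intro i
    rw [Matrix.mul_sub, Matrix.sub_mul, hlam]
    congr 1
    rw [XT, Matrix.mul_assoc (pr OA i) (∑ i, pr OA i * XX OB (xs i) * pr OA i) (pr OA i),
      mul_pr_sum (fun i => pr OA i * XX OB (xs i)) i]
    rw [← Matrix.mul_assoc, ← Matrix.mul_assoc, (pr_isPr i).2]
  simp only [h1]
  have h2 : ∑ i, hs (pr OA i * (XT OA OB xs - a) * pr OA i) ≤ hs (XT OA OB xs - a) := by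
    refine le_trans (sum_le_sum fun i _ => hs_mul_pr_le_self (pr_isPr i) _) ?_
    exact sum_hs_pr_mul _
  refine h2.trans (ha2.trans ?_)
  have h3 := mul_le_mul_of_nonneg_left (h.enXT hx) h.K0n
  rw [ηη]
  linarith

end

end Pool.Agent.Helper3.CK
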