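import Pool.Graph.R_pool_sql_team_seeded_63374d34.N52.NH.Fin
import Pool.Graph.R_seed8.Helper278.TB.PropT

/-!
# CK: statements of the parts of the project (centralisers of Kazhdan subgroups)
-/

set_option autoImplicit false

namespace Pool.Agent.Helper3.CK

open Matrix Finset
open scoped ComplexOrder
open Pool.Agent.W661.RC Pool.Agent.W683.RC Pool.Agent.N303.KQ
open Pool.Agent.H21R2 (IsHyperlinear IsSofic)
open Pool.Agent.N44.NS (E3 el)

noncomputable section

/-! ### Analysis -/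

/-- the orthogonal projection of the matrices onto the block algebra -/
def EB {d : ℕ} (O : Out d) (x : Mt d) : Mt d := JJ (Jb O) (kp (Jb O) x)

/-- EB: positivity and contractivity of the orthogonal projection onto the block algebra. -/
def S_EB : Prop :=
  ∀ (d : ℕ) (O : Out d),
    (∀ x : Mt d, x.PosSemidef → (EB O x).PosSemidef) ∧
    (∀ x : Mt d, Le (xᴴ * x) 1 → Le ((EB O x)ᴴ * EB O x) 1) ∧
    (∀ x : Mt d, (EB O x)ᴴ = EB O xᴴ) ∧
    (∀ a ∈ O.alg, ∀ x : Mt d, EB O (a * x) = a * EB O x ∧ EB O (x * a) = EB O x * a) ∧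
    (∀ a ∈ O.alg, EB O a = a) ∧ EB O 1 = pO O ∧
    (∀ a ∈ O.alg, ∀ x : Mt d, Matrix.trace (a * EB O x) = Matrix.trace (a * x))

/-- A3: if random unitaries of the block algebra are mapped into it by the conjugation with `V` then
all contractions are. -/
def S_A3 : Prop :=
  ∀ (d : ℕ) (O : Out d) (V : Mt d) (δ : ℝ), Vᴴ * V = 1 → 0 ≤ δ →
    D0 O - δ * d ≤ W2 O (TT O V) → NearInv O V (4 * δ)

/-- CORE: if the generators `u_s` of an approximation of a Kazhdan group conjugate the block algebra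
`OB` into itself, then so do their inverses. -/
def S_CORE : Prop :=
  ∀ (k : ℕ) (K0 ε0 : ℝ), 0 ≤ K0 → 0 < ε0 → ∃ ε : ℝ, 0 < ε ∧
    ∀ (d : ℕ) (OA OB : Out d) (u : Fin k → Mt d), (∀ s, (u s)ᴴ * u s = 1) →
      (∀ s, NearInv OB (u s) ε) → BlkA u K0 ε OA →
      (∀ a ∈ OA.alg, Le (aᴴ * a) 1 → ∃ b ∈ OB.alg, hs (a - b) ≤ ε * d) →
      (d : ℝ) - D0 OB ≤ ε * d → ∀ s, NearInv OB (u s)ᴴ ε0

/-! ### Groups -/

/-- CLOS: in a hyperlinear group the centraliser of the Kazhdan subgroup `K` of the Kazhdan group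
`Q` is normalised by `Q`, if `Q` is generated by elements `s` with `K ≤ s K s⁻¹`. -/
def S_CLOS : Prop :=
  ∀ (P : Type) [Group P] (Q : Type) [Group Q] (j : Q →* P) (K : Subgroup Q),
    IsHyperlinear P → HasT Q → HasT K →
    Subgroup.closure {s : Q | ∀ x ∈ K, s⁻¹ * x * s ∈ K} = ⊤ →
    ∀ t : P, (∀ x ∈ K, t * j x = j x * t) →
      ∀ (q : Q), ∀ x ∈ K, t * j (q * x * q⁻¹) = j (q * x * q⁻¹) * t

/-- TGEN: property (T) of a group generated by Kazhdan subgroups `K` and `D`, where `D` is generated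
by elements `s` with `K ≤ s K s⁻¹`. -/
def S_TGEN : Prop :=
  ∀ (G : Type) [Group G] (K D : Subgroup G), HasT K → HasT D → K ⊔ D = ⊤ →
    D ≤ Subgroup.closure {s : G | s ∈ D ∧ ∀ x ∈ K, s⁻¹ * x * s ∈ K} → HasT G

/-- TT12: property (T) of `E_3(A)`, `A` an algebra generated by at most twelve elements over a finite
field with at least 256 elements. -/
def S_TT12 : Prop :=
  ∀ (F : Type) [Field F] [Fintype F], 256 ≤ Fintype.card F → ∀ (A : Type) [Ring A] [Algebra F A]
    (m : ℕ) (g : Fin m → A), m ≤ 12 → Algebra.adjoin F (Set.range g) = ⊤ → HasT (E3 A)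

/-- residually finite groups -/
def RF (G : Type) [Group G] : Prop :=
  ∀ g : G, g ≠ 1 → ∃ (H : Type) (_ : Group H) (_ : Finite H) (f : G →* H), f g ≠ 1

/-- the group data -/
structure Pair (Q : Type) [Group Q] (K : Subgroup Q) : Prop where
  rf : RF Q
  tQ : HasT Q
  tK : HasT K
  gen : Subgroup.closure {s : Q | ∀ x ∈ K, s⁻¹ * x * s ∈ K} = ⊤
  ne : ∃ q : Q, ∃ x ∈ K, q * x * q⁻¹ ∉ K

/-- DATA -/
def S_DATA : Prop := ∃ (Q : Type) (_ : Group Q) (K : Subgroup Q), Pair Q K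

end

end Pool.Agent.Helper3.CK
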