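import Pool.Agent.Helper3.CK.Stm

/-!
# CK: statements of the parts of the construction of the group data
-/

set_option autoImplicit false

namespace Pool.Agent.Helper3.CK

open Matrix Finset
open Pool.Agent.W661.RC (HasT)
open Pool.Agent.H21R2 (IsHyperlinear IsSofic)
open Pool.Agent.N44.NS (E3 el)

noncomputable section

/-- the units of the 3 x 3 matrices over the 2 x 2 matrices over the group algebra -/
abbrev WW (F Δ : Type) [Field F] [Group Δ] : Type :=
  (Matrix (Fin 3) (Fin 3) (Matrix (Fin 2) (Fin 2) (MonoidAlgebra F Δ)))ˣ

instance fact257 : Fact (Nat.Prime 257) := ⟨by norm_num⟩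

/-- MON: the group `E_3(F[X])`, `F` the field with 257 elements, is generated by five elements which
do not generate it as a monoid. -/
def S_MON : Prop :=
  ∃ g : Fin 5 → E3 (Polynomial (ZMod 257)), Subgroup.closure (Set.range g) = ⊤ ∧
    ∃ i, (g i)⁻¹ ∉ Submonoid.closure (Set.range g)

/-- RF1: `E_3(F[X])` is residually finite. -/
def S_RF1 : Prop := RF (E3 (Polynomial (ZMod 257)))

/-- RF2: the units of the matrices over the group algebra of a residually finite group over a finite
field are residually finite. -/
def S_RF2 : Prop :=
  ∀ (F Δ : Type) [Field F] [Finite F] [Group Δ], RF Δ → RF (WW F Δ)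

/-- GRP: the group data from a residually finite Kazhdan group `Δ` with a finitely generated
submonoid which generates `Δ` as a group and is not a group. -/
def S_GRP : Prop :=
  ∀ (F Δ : Type) [Field F] [Fintype F] [Group Δ] (m : ℕ) (g : Fin m → Δ), S_TGEN → S_TT12 →
    256 ≤ Fintype.card F → m ≤ 10 → HasT Δ → RF (WW F Δ) → Subgroup.closure (Set.range g) = ⊤ →
    (∃ i, (g i)⁻¹ ∉ Submonoid.closure (Set.range g)) → S_DATA

/-- the permutational wreath product of `ZMod 2` and `Q` for the action of `Q` on the cosets of
`K`: finitely supported functions and elements of `Q` -/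
abbrev Lamp {Q : Type} [Group Q] (K : Subgroup Q) : Type := Multiplicative (Q ⧸ K →₀ ZMod 2)

/-- the action of `Q` on the finitely supported functions on the cosets of `K` -/
def lampAct {Q : Type} [Group Q] (K : Subgroup Q) : Q →* MulAut (Lamp K) where
  toFun q := AddEquiv.toMultiplicative (Finsupp.domCongr (MulAction.toPerm q))
  map_one' := by
    ext f c
    change Finsupp.domCongr (MulAction.toPerm (1 : Q)) (Multiplicative.toAdd f) c =
      (Multiplicative.toAdd f) c
    rw [Finsupp.domCongr_apply, Finsupp.equivMapDomain_apply]
    simp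
  map_mul' a b := by
    ext f c
    change Finsupp.domCongr (MulAction.toPerm (a * b)) (Multiplicative.toAdd f) c =
      Finsupp.domCongr (MulAction.toPerm a) (Finsupp.domCongr (MulAction.toPerm b)
        (Multiplicative.toAdd f)) c
    simp only [Finsupp.domCongr_apply, Finsupp.equivMapDomain_apply]
    congr 1
    simp [mul_smul]

/-- the permutational wreath product -/
abbrev Wr {Q : Type} [Group Q] (K : Subgroup Q) : Type := Lamp K ⋊[lampAct K] Q

/-- CONS: consequences of the closure theorem. -/
def S_CONS : Prop :=
  ∀ (Q : Type) [Group Q] (K : Subgroup Q), S_CLOS → Pair Q K →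
    ¬ IsHyperlinear (Wr K) ∧ ¬ IsHyperlinear (HNNExtension Q K K (MulEquiv.refl K)) ∧
    ¬ IsHyperlinear (Monoid.PushoutI (fun _ : Fin 2 => K.subtype))

end

end Pool.Agent.Helper3.CK
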