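import Pool.Agent.Helper3.CK.One
import Pool.Agent.Helper52.CK.EB
import Pool.Graph.R_pool_sql_team_seeded_63374d34.N957.NH.AVG

/-!
# CK: the pieces, sums over the pieces
-/

set_option autoImplicit false

namespace Pool.Agent.Helper3.CK

open Matrix Finset
open scoped ComplexOrder
open Pool.Agent.W661.RC Pool.Agent.W683.RC Pool.Agent.N303.KQ
open Pool.Agent.Helper52.CK (E E_mem E_psd E_sub E_one tr_E)

noncomputable section

variable {d k : ℕ}

/-- the hypotheses of the theorem -/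
structure SU (OA OB : Out d) (u : Fin k → Mt d) (K0 ε : ℝ) : Prop where
  un : ∀ s, (u s)ᴴ * u s = 1
  inv : ∀ s, NearInv OB (u s) ε
  blk : BlkA u K0 ε OA
  near : ∀ a ∈ OA.alg, Le (aᴴ * a) 1 → ∃ b ∈ OB.alg, hs (a - b) ≤ ε * d
  size : (d : ℝ) - D0 OB ≤ ε * d
  K0n : 0 ≤ K0
  εn : 0 ≤ ε

/-- the projection onto the block algebra as a linear map -/
def El (O : Out d) : Mt d →ₗ[ℂ] Mt d where
  toFun x := E O x
  map_add' x y := Pool.Agent.Helper52.CK.E_add x y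
  map_smul' c x := by
    show E O (c • x) = c • E O x
    unfold E
    have h : kp (Jb O) (c • x) = c • kp (Jb O) x := by
      funext y
      simp [kp, ip_smul_right]
    rw [h, Pool.Agent.N303.KQ.JJ, Pool.Agent.N303.KQ.JJ, Finset.smul_sum]
    refine sum_congr rfl fun y _ => ?_
    rw [Pi.smul_apply, smul_assoc]

theorem El_apply (O : Out d) (x : Mt d) : El O x = E O x := rfl

theorem hs_sub_E_le {O : Out d} {x a : Mt d} (ha : a ∈ O.alg) : hs (x - E O x) ≤ hs (x - a) :=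
  hs_sub_kp_le ha

/-- the positive elements of the second block algebra near to the pieces -/
def bb (OA OB : Out d) (i : OA.I) : Mt d := E OB (pr OA i)

variable {OA OB : Out d}

theorem bb_mem (i : OA.I) : bb OA OB i ∈ OB.alg := E_mem _

theorem bb_psd (i : OA.I) : (bb OA OB i).PosSemidef := E_psd (pr_psd (pr_isPr i))

theorem tr_E_eq (O : Out d) (x : Mt d) : tr (E O x) = tr (pO O * x) := by
  have h := tr_E (O := O) (a := pO O) (by rw [← Zf_one]; exact Zf_mem _) x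
  rw [pO_mul (E_mem x)] at h
  rw [tr, tr, h]

theorem tr_bb_le (i : OA.I) : tr (bb OA OB i) ≤ tr (pr OA i) := by
  rw [bb, tr_E_eq]
  exact tr_mul_le_of_le_one (pr_le_one pO_pr) (pr_psd (pr_isPr i))

theorem sum_bb : ∑ i, bb OA OB i = E OB (pO OA) := by
  have h : ∑ i, El OB (pr OA i) = El OB (∑ i, pr OA i) := (map_sum _ _ _).symm
  rw [sum_pr] at h
  exact h

theorem rest_psd : (pO OB - ∑ i, bb OA OB i).PosSemidef := by
  rw [sum_bb, ← E_one, ← E_sub]
  exact E_psd (pr_psd (pr_compl pO_pr))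

theorem rest_mem : pO OB - ∑ i, bb OA OB i ∈ OB.alg := by
  rw [sum_bb, ← E_one, ← E_sub]
  exact E_mem _

theorem tr_rest_le : tr (pO OB - ∑ i, bb OA OB i) ≤ d - D0 OA := by
  rw [sum_bb, ← E_one, ← E_sub, tr_E_eq]
  refine (tr_mul_le_of_le_one (pr_le_one pO_pr) (pr_psd (pr_compl pO_pr))).trans ?_
  rw [tr_sub, tr_one, tr_pO]

variable {u : Fin k → Mt d} {K0 ε : ℝ}

theorem SU.F1 (h : SU OA OB u K0 ε) : ∑ i, hs (pr OA i - bb OA OB i) ≤ ε * d := by
  have h1 := Pool.Agent.N957.NH.AVG d OA (LinearMap.id - El OB) (ε * d) (fun a ha ha1 => by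
    obtain ⟨b, hb, hab⟩ := h.near a ha ha1
    exact (hs_sub_E_le hb).trans hab)
  exact h1

theorem SU.F2 (h : SU OA OB u K0 ε) (s : Fin k) :
    ∑ i, hs (u s * pr OA i - pr OA i * u s) ≤ ε * d := by
  have h1 := Pool.Agent.N957.NH.AVG d OA (LinearMap.mulLeft ℂ (u s) - LinearMap.mulRight ℂ (u s))
    (ε * d) (fun a ha ha1 => by
    refine le_trans ?_ (h.blk.en a ha ha1)
    exact single_le_sum (f := fun s => hs (u s * a - a * u s))
      (fun i _ => Pool.Agent.W683.RC.hs_nonneg _) (mem_univ s))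
  exact h1

theorem sum_tr_pr : ∑ i, tr (pr OA i) ≤ d := by
  rw [← tr_sum, sum_pr, tr_pO]
  exact D0_le

theorem sum_sqrt_le {I : Type} [Fintype I] (f g : I → ℝ) (hf : ∀ i, 0 ≤ f i) (hg : ∀ i, 0 ≤ g i)
    {ε : ℝ} (hε : 0 ≤ ε) (h1 : ∑ i, f i ≤ ε * d) (h2 : ∑ i, g i ≤ d) :
    ∑ i, √(f i) * √(g i) ≤ √ε * d := by
  refine (Real.sum_mul_le_sqrt_mul_sqrt univ _ _).trans ?_
  have e1 : ∑ i, √(f i) ^ 2 = ∑ i, f i := sum_congr rfl fun i _ => Real.sq_sqrt (hf i)
  have e2 : ∑ i, √(g i) ^ 2 = ∑ i, g i := sum_congr rfl fun i _ => Real.sq_sqrt (hg i)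
  rw [e1, e2]
  calc √(∑ i, f i) * √(∑ i, g i) ≤ √(ε * d) * √(d : ℝ) :=
        mul_le_mul (Real.sqrt_le_sqrt h1) (Real.sqrt_le_sqrt h2) (Real.sqrt_nonneg _)
          (Real.sqrt_nonneg _)
    _ = √ε * d := by
        rw [Real.sqrt_mul hε, mul_assoc, Real.mul_self_sqrt (Nat.cast_nonneg _)]

theorem SU.F3 (h : SU OA OB u K0 ε) (s : Fin k) :
    ∑ i, er (pr OA i) (bb OA OB i) (u s) ≤ 2 * (√ε * d) := by
  unfold er
  rw [sum_add_distrib]
  have h1 := sum_sqrt_le (d := d) (fun i => hs (pr OA i - bb OA OB i)) (fun i => tr (pr OA i))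
    (fun i => Pool.Agent.W683.RC.hs_nonneg _) (fun i => pr_tr_nonneg (pr_isPr i)) h.εn h.F1
    sum_tr_pr
  have h2 := sum_sqrt_le (d := d) (fun i => hs (u s * pr OA i - pr OA i * u s))
    (fun i => tr (pr OA i))
    (fun i => Pool.Agent.W683.RC.hs_nonneg _) (fun i => pr_tr_nonneg (pr_isPr i)) h.εn (h.F2 s)
    sum_tr_pr
  linarith

/-- sums of the transported masses over the pieces -/
theorem sum_mm_bb (V : Mt d) (j' j : OB.I) :
    ∑ i, mm OB (bb OA OB i) V j' j + mm OB (pO OB - ∑ i, bb OA OB i) V j' j =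
      mm OB (pO OB) V j' j := by
  unfold mm
  rw [← tr_sum, ← tr_add, ← Matrix.sum_mul, ← Matrix.add_mul, ← Matrix.sum_mul, ← Matrix.add_mul,
    add_sub_cancel]

theorem sum_gd (V : Mt d) : ∑ i, Gd OB (bb OA OB i) V ≤
    ∑ j', ∑ j, gd (ph OB j') (ph OB j) * kk OB V j' j := by
  rw [sum_kk_eq V (fun j' j => gd (ph OB j') (ph OB j)) (fun j a b hab => by
    beta_reduce
    rw [ph_CF a b hab])]
  unfold Gd
  rw [sum_comm]
  refine sum_le_sum fun j' _ => ?_
  rw [sum_comm]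
  refine sum_le_sum fun j _ => ?_
  rw [← mul_sum]
  refine mul_le_mul_of_nonneg_left ?_ (gd_nonneg _ _)
  have h1 := sum_mm_bb (OA := OA) V j' j
  have h2 := mm_nonneg (V := V) (rest_mem (OA := OA) (OB := OB)) rest_psd j' j
  linarith

theorem sum_gu (V : Mt d) (hV : Vᴴ * V = 1) :
    ∑ j', ∑ j, gu (ph OB j') (ph OB j) * kk OB V j' j ≤
    ∑ i, Gu OB (bb OA OB i) V + (d - D0 OA) := by
  rw [sum_kk_eq V (fun j' j => gu (ph OB j') (ph OB j)) (fun j a b hab => by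
    beta_reduce
    rw [ph_CF a b hab])]
  have h1 : ∑ j', ∑ j, gu (ph OB j') (ph OB j) * mm OB (pO OB) V j' j =
      ∑ i, Gu OB (bb OA OB i) V +
      ∑ j', ∑ j, gu (ph OB j') (ph OB j) * mm OB (pO OB - ∑ i, bb OA OB i) V j' j := by
    unfold Gu
    rw [sum_comm (f := fun i j' => ∑ j, gu (ph OB j') (ph OB j) * mm OB (bb OA OB i) V j' j),
      ← sum_add_distrib]
    refine sum_congr rfl fun j' _ => ?_
    rw [sum_comm, ← sum_add_distrib]
    refine sum_congr rfl fun j _ => ?_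
    rw [← mul_sum, ← mul_add, sum_mm_bb]
  rw [h1]
  have h2 : ∑ j', ∑ j, gu (ph OB j') (ph OB j) * mm OB (pO OB - ∑ i, bb OA OB i) V j' j ≤
      ∑ j', ∑ j, 1 * 1 * mm OB (pO OB - ∑ i, bb OA OB i) V j' j := by
    refine sum_le_sum fun j' _ => sum_le_sum fun j _ => ?_
    refine mul_le_mul_of_nonneg_right ?_ (mm_nonneg rest_mem rest_psd j' j)
    rw [one_mul]
    exact gu_le_one (ph_nonneg _) (ph_nonneg _)
  rw [sum_mm _ V (φ := fun _ => 1) (fun _ _ _ => rfl) (fun _ => 1), mul_Zf_one rest_mem, Zf_one]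
    at h2
  have h3 : tr ((pO OB - ∑ i, bb OA OB i) * (V * pO OB * Vᴴ)) ≤ tr (pO OB - ∑ i, bb OA OB i) := by
    rw [tr_mul_comm]
    exact tr_mul_le_of_le_one (VpV_le hV) rest_psd
  have h4 := tr_rest_le (OA := OA) (OB := OB)
  linarith

end

end Pool.Agent.Helper3.CK
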