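import Pool.Agent.Helper3.CK.Stm

/-!
# CK: replacing a projection by a nearby positive matrix in traces
-/

set_option autoImplicit false

namespace Pool.Agent.Helper3.CK

open Matrix Finset
open scoped ComplexOrder
open Pool.Agent.W661.RC Pool.Agent.W683.RC Pool.Agent.N303.KQ

noncomputable section

variable {d : ℕ}

theorem hs_contr_mul_pr {Y p : Mt d} (hY : Le (Yᴴ * Y) 1) (hp : IsPr p) : hs (Y * p) ≤ tr p := by
  rw [pr_tr_eq_hs hp]
  exact Pool.Agent.W683.RC.hs_mul_le hY p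

theorem hs_pr_mul_contr {Y p : Mt d} (hY : Le (Yᴴ * Y) 1) (hp : IsPr p) : hs (p * Y) ≤ tr p := by
  rw [pr_tr_eq_hs hp]
  exact hs_mul_le_right hY p

/-- `|tr ((p - b) Y)|` for a projection `p`, a nearby positive `b` and a positive contraction `Y` -/
theorem abs_tr_sub_mul_le {p b Y : Mt d} (hp : IsPr p) (hb : b.PosSemidef) (hbp : tr b ≤ tr p)
    (hY0 : Y.PosSemidef) (hY1 : Le Y 1) :
    |tr ((p - b) * Y)| ≤ 3 * (√(hs (p - b)) * √(tr p)) := by
  have hYc : Le (Yᴴ * Y) 1 := Pool.Agent.W683.RC.sq_le_one hY0 hY1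
  set D := p - b with hD
  have hq := pr_compl hp
  -- three terms
  have e1 : tr (D * Y) = tr (D * (Y * p)) + tr (D * (p * Y * (1 - p))) -
      tr ((1 - p) * b * (1 - p) * Y) := by
    have h1 : tr (D * (Y * p)) = tr (p * (D * Y)) := by
      rw [← Matrix.mul_assoc, tr_mul_comm]
    have h2 : tr (D * (p * Y * (1 - p))) = tr ((1 - p) * (D * p) * Y) := by
      calc tr (D * (p * Y * (1 - p))) = tr (D * p * Y * (1 - p)) := by
            simp only [Matrix.mul_assoc]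
        _ = tr ((1 - p) * (D * p * Y)) := tr_mul_comm _ _
        _ = _ := by simp only [Matrix.mul_assoc]
    have h3 : (1 - p) * b * (1 - p) = -((1 - p) * D * (1 - p)) := by
      have h4 : (1 - p) * p = 0 := by rw [Matrix.sub_mul, Matrix.one_mul, hp.2, sub_self]
      have h5 : (1 - p) * D = -((1 - p) * b) := by
        rw [hD, Matrix.mul_sub (1 - p) p b, h4, zero_sub]
      rw [h5, Matrix.neg_mul, neg_neg]
    rw [h1, h2, h3, Matrix.neg_mul, tr_neg, sub_neg_eq_add, ← tr_add, ← tr_add]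
    congr 1
    have h5 : (1 - p) * (D * p) * Y + (1 - p) * D * (1 - p) * Y = (1 - p) * D * Y := by
      rw [← Matrix.add_mul, ← Matrix.mul_assoc, ← Matrix.mul_add, add_sub_cancel, Matrix.mul_one]
    have h6 : (1 - p) * D * Y = D * Y - p * (D * Y) := by
      rw [Matrix.sub_mul 1 p D, Matrix.one_mul, Matrix.sub_mul D (p * D) Y, Matrix.mul_assoc]
    rw [add_assoc, h5, h6]
    abel
  have h1 : |tr (D * (Y * p))| ≤ √(hs D) * √(tr p) :=
    (abs_tr_mul_le _ _).trans (mul_le_mul_of_nonneg_left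
      (Real.sqrt_le_sqrt (hs_contr_mul_pr hYc hp)) (Real.sqrt_nonneg _))
  have h2 : |tr (D * (p * Y * (1 - p)))| ≤ √(hs D) * √(tr p) :=
    (abs_tr_mul_le _ _).trans (mul_le_mul_of_nonneg_left
      (Real.sqrt_le_sqrt ((hs_mul_pr_le_self hq _).trans (hs_pr_mul_contr hYc hp)))
      (Real.sqrt_nonneg _))
  have hpsd : ((1 - p) * b * (1 - p)).PosSemidef := by
    have := hb.mul_mul_conjTranspose_same (1 - p)
    rwa [hq.1] at this
  have h3 : 0 ≤ tr ((1 - p) * b * (1 - p) * Y) := Pool.Agent.W683.RC.tr_mul_nonneg hpsd hY0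
  have h4 : tr ((1 - p) * b * (1 - p) * Y) ≤ √(hs D) * √(tr p) := by
    have h5 : tr ((1 - p) * b * (1 - p) * Y) ≤ tr ((1 - p) * b * (1 - p)) := by
      rw [tr_mul_comm]
      exact tr_mul_le_of_le_one hY1 hpsd
    have h6 : tr ((1 - p) * b * (1 - p)) = tr b - tr (b * p) := by
      rw [tr_mul_comm, ← Matrix.mul_assoc, hq.2, Matrix.sub_mul, Matrix.one_mul, tr_sub,
        tr_mul_comm p b]
    have h7 : tr (D * p) = tr p - tr (b * p) := by
      rw [hD, Matrix.sub_mul, tr_sub, hp.2]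
    have h8 : tr (D * p) ≤ √(hs D) * √(tr p) := by
      refine (tr_mul_le _ _).trans ?_
      rw [pr_tr_eq_hs hp]
    linarith
  rw [e1]
  have a1 := abs_le.1 h1
  have a2 := abs_le.1 h2
  rw [abs_le]
  constructor <;> linarith [a1.1, a1.2, a2.1, a2.2]

/-- near invariance of a projection, in traces -/
theorem abs_tr_conj_sub_mul_le {p V Y : Mt d} (hp : IsPr p) (hV : Vᴴ * V = 1)
    (hY : Le (Yᴴ * Y) 1) :
    |tr ((p - Vᴴ * p * V) * Y)| ≤ 2 * (√(hs (V * p - p * V)) * √(tr p)) := by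
  set q := Vᴴ * p * V with hqd
  have hVV := unit_symm hV
  have hq : IsPr q := by
    refine ⟨?_, ?_⟩
    · rw [hqd, conjTranspose_mul, conjTranspose_mul, conjTranspose_conjTranspose, hp.1,
        Matrix.mul_assoc]
    · rw [hqd]
      calc Vᴴ * p * V * (Vᴴ * p * V) = Vᴴ * (p * (V * Vᴴ) * p) * V := by
            simp only [Matrix.mul_assoc]
        _ = Vᴴ * p * V := by rw [hVV, Matrix.mul_one, hp.2]
  have htq : tr q = tr p := by
    rw [hqd, tr_mul_comm, ← Matrix.mul_assoc, hVV, Matrix.one_mul]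
  have hs1 : hs (p - q) = hs (V * p - p * V) := by
    have e : V * (p - q) = V * p - p * V := by
      rw [Matrix.mul_sub, hqd, ← Matrix.mul_assoc, ← Matrix.mul_assoc, hVV, Matrix.one_mul]
    rw [← e, hs_unit_mul hV]
  have e : tr ((p - q) * Y) = tr ((p - q) * (Y * p)) + tr ((p - q) * (q * Y)) := by
    have h1 : tr ((p - q) * (Y * p)) = tr (p * ((p - q) * Y)) := by
      rw [← Matrix.mul_assoc, tr_mul_comm]
    rw [h1, ← tr_add, ← Matrix.mul_assoc, ← Matrix.mul_assoc, ← Matrix.add_mul]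
    congr 2
    rw [Matrix.mul_sub, Matrix.sub_mul, hp.2, hq.2]
    abel
  have h1 : |tr ((p - q) * (Y * p))| ≤ √(hs (p - q)) * √(tr p) :=
    (abs_tr_mul_le _ _).trans (mul_le_mul_of_nonneg_left
      (Real.sqrt_le_sqrt (hs_contr_mul_pr hY hp)) (Real.sqrt_nonneg _))
  have h2 : |tr ((p - q) * (q * Y))| ≤ √(hs (p - q)) * √(tr p) := by
    refine (abs_tr_mul_le _ _).trans (mul_le_mul_of_nonneg_left
      (Real.sqrt_le_sqrt ?_) (Real.sqrt_nonneg _))
    rw [← htq]
    exact hs_pr_mul_contr hY hq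
  rw [hs1] at h1 h2
  rw [e]
  have a1 := abs_le.1 h1
  have a2 := abs_le.1 h2
  rw [abs_le]
  constructor <;> linarith [a1.1, a1.2, a2.1, a2.2]

/-- conjugation of a positive contraction by a unitary -/
theorem psd_conj {Y V : Mt d} (hY : Y.PosSemidef) : (V * Y * Vᴴ).PosSemidef :=
  hY.mul_mul_conjTranspose_same V

theorem le_one_conj {Y V : Mt d} (hV : Vᴴ * V = 1) (hY : Le Y 1) : Le (V * Y * Vᴴ) 1 := by
  have h := Le_conj' hY V
  rwa [Matrix.mul_one, unit_symm hV] at h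

/-- the error term -/
def er (p b V : Mt d) : ℝ := √(hs (p - b)) * √(tr p) + √(hs (V * p - p * V)) * √(tr p)

theorem er_nonneg (p b V : Mt d) : 0 ≤ er p b V := by
  unfold er
  positivity

/-- near invariance of `b`, in traces -/
theorem abs_tr_conj_sub_mul_le' {p b V Y : Mt d} (hp : IsPr p) (hb : b.PosSemidef)
    (hbp : tr b ≤ tr p) (hV : Vᴴ * V = 1) (hY0 : Y.PosSemidef) (hY1 : Le Y 1) :
    |tr (b * Y) - tr (b * (V * Y * Vᴴ))| ≤ 8 * er p b V := by
  have h1 := abs_tr_sub_mul_le hp hb hbp hY0 hY1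
  have h2 := abs_tr_sub_mul_le hp hb hbp (psd_conj (V := V) hY0) (le_one_conj hV hY1)
  have h3 := abs_tr_conj_sub_mul_le hp hV (Pool.Agent.W683.RC.sq_le_one hY0 hY1)
  have e3 : tr ((p - Vᴴ * p * V) * Y) = tr (p * Y) - tr (p * (V * Y * Vᴴ)) := by
    rw [Matrix.sub_mul, tr_sub]
    congr 1
    calc tr (Vᴴ * p * V * Y) = tr (Vᴴ * (p * V * Y)) := by simp only [Matrix.mul_assoc]
      _ = tr (p * V * Y * Vᴴ) := tr_mul_comm _ _
      _ = _ := by simp only [Matrix.mul_assoc]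
  rw [e3] at h3
  rw [Matrix.sub_mul, tr_sub] at h1 h2
  have a1 := abs_le.1 h1
  have a2 := abs_le.1 h2
  have a3 := abs_le.1 h3
  have n1 : 0 ≤ √(hs (p - b)) * √(tr p) := by positivity
  have n2 : 0 ≤ √(hs (V * p - p * V)) * √(tr p) := by positivity
  rw [abs_le, er]
  constructor <;> nlinarith [a1.1, a1.2, a2.1, a2.2, a3.1, a3.2]

/-- squares of hermitian matrices between `-1` and `1` -/
theorem sq_le_one_of_abs {Δ : Mt d} (h1 : Le Δ 1) (h2 : Le (-1) Δ) :
    Le (Δ * Δ) 1 := by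
  have hA : (1 - Δ).PosSemidef := h1
  have hB : (1 + Δ).PosSemidef := by
    have : (Δ - (-1)).PosSemidef := h2
    rwa [sub_neg_eq_add, add_comm] at this
  have hAh : (1 - Δ)ᴴ = 1 - Δ := hA.1
  have hBh : (1 + Δ)ᴴ = 1 + Δ := hB.1
  have p1 : ((1 + Δ) * (1 - Δ) * (1 + Δ)).PosSemidef := by
    have := hA.mul_mul_conjTranspose_same (1 + Δ)
    rwa [hBh] at this
  have p2 : ((1 - Δ) * (1 + Δ) * (1 - Δ)).PosSemidef := by
    have := hB.mul_mul_conjTranspose_same (1 - Δ)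
    rwa [hAh] at this
  have e : 1 - Δ * Δ = (((1 / 2 : ℝ) : ℂ)) • ((1 + Δ) * (1 - Δ) * (1 + Δ) +
      (1 - Δ) * (1 + Δ) * (1 - Δ)) := by
    have e1 : (1 + Δ) * (1 - Δ) * (1 + Δ) + (1 - Δ) * (1 + Δ) * (1 - Δ) =
        (2 : ℂ) • (1 - Δ * Δ) := by
      rw [two_smul]
      noncomm_ring
    rw [e1, smul_smul]
    norm_num
  show (1 - Δ * Δ).PosSemidef
  rw [e]
  exact psd_smul (p1.add p2) (by norm_num)

end

end Pool.Agent.Helper3.CK
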